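import Pool.Agent.Q282.HM.Mk
import Pool.Agent.Q282.RH.EvenAll

/-!
# High moments over boxes of integer vectors
-/

set_option autoImplicit false
set_option linter.unusedSectionVars false

namespace Q282HM

open Finset
open Q282RH (ex tbox ex_fin tbox_equiv sum_tbox zper_mod sum_zbox)
open Q282LT
open Q282.BP (bx mem_bx card_bx)
open Pool.Agent.TH894.NE (Per mean)

/-- **High moments over a box.** -/
theorem moment {ι : Type} [Fintype ι] [DecidableEq ι] (I : Finset ℕ) (hI : ∀ p ∈ I, p.Prime)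
    (G : (p : ℕ) → (ι → ZMod p) → ℝ) (B : ℕ → ℝ) (B₁ : ℝ) (hB : ∀ p ∈ I, 0 ≤ B p ∧ B p ≤ B₁) (hB₁ : 0 ≤ B₁)
    (hG : ∀ p ∈ I, ∀ _ : Fact p.Prime, ex (G p) = 0 ∧ ∀ a, |G p a| ≤ B p)
    (Y : ℕ) (hY : ∀ p ∈ I, p ≤ Y) (k : ℕ) (hk : 1 ≤ k) (V : ℝ) (hV : 0 < V) (hBV : ∑ p ∈ I, B p ^ 2 ≤ V) (m : ι → ℤ) (L : ι → ℕ)
    (T : ℝ) (hT0 : 0 < T) (hL : ∀ i, T ≤ L i) (hT : Fintype.card ι * (Y : ℝ) ^ (2 * k) ≤ T) :
    ∑ ν ∈ tbox m L, (∑ p ∈ I, G p (fun i => (ν i : ZMod p))) ^ (2 * k) ≤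
      (∏ i, (L i : ℝ)) * ((12 * k * V) ^ k + (I.card * B₁) ^ (2 * k) * (2 * (Fintype.card ι * (Y : ℝ) ^ (2 * k) / T))) := by
  classical
  obtain ⟨e⟩ : Nonempty (ι ≃ Fin (Fintype.card ι)) := ⟨Fintype.equivFin ι⟩
  obtain ⟨d, hd⟩ : ∃ d : ℕ, d = Fintype.card ι := ⟨_, rfl⟩
  rw [sum_tbox e m L, sum_zbox]
  obtain ⟨L', hL'⟩ : ∃ L' : Fin (Fintype.card ι) → ℕ, L' = fun k => L (e.symm k) := ⟨_, rfl⟩
  obtain ⟨m', hm'⟩ : ∃ m' : Fin (Fintype.card ι) → ℤ, m' = fun k => m (e.symm k) := ⟨_, rfl⟩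
  have hprod : ∏ i, (L i : ℝ) = ∏ k, (L' k : ℝ) := by
    rw [hL']
    exact (Equiv.prod_comp e.symm (fun i => (L i : ℝ))).symm
  rw [hprod, ← hL']
  have hL2 : ∀ k, T ≤ L' k := by
    intro k
    rw [hL']
    exact hL _
  have hP0 : 0 < ∏ k, (L' k : ℝ) := prod_pos fun k _ => hT0.trans_le (hL2 k)
  obtain ⟨F, hF⟩ : ∃ F : ℕ → (Fin (Fintype.card ι) → ℤ) → ℝ, F = fun p ν => if hp : p.Prime then
    haveI : Fact p.Prime := ⟨hp⟩
    G p (fun i => (ν (e i) : ZMod p)) else 0 := ⟨_, rfl⟩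
  have hFp : ∀ p ∈ I, F p = fun ν => G p (fun i => (ν (e i) : ZMod p)) := by
    intro p hp
    rw [hF]
    funext ν
    simp only
    rw [dif_pos (hI p hp)]
  have hper : ∀ p ∈ I, ZPer p (F p) := by
    intro p hp
    have : Fact p.Prime := ⟨hI p hp⟩
    rw [hFp p hp]
    exact zper_mod (fun b : Fin (Fintype.card ι) → ZMod p => G p (fun i => b (e i)))
  have havg : ∀ p ∈ I, avg (Fintype.card ι) p (F p) = 0 := by
    intro p hp
    have : Fact p.Prime := ⟨hI p hp⟩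
    rw [hFp p hp, ex_fin (p := p) e (G p)]
    exact (hG p hp inferInstance).1
  have hb : ∀ p ∈ I, ∀ ν, |F p ν| ≤ B p := by
    intro p hp ν
    have : Fact p.Prime := ⟨hI p hp⟩
    rw [hFp p hp]
    exact (hG p hp inferInstance).2 _
  obtain ⟨H, hH⟩ : ∃ H : ℕ → (Fin (Fintype.card ι) → ℕ) → ℝ, H = fun a n => F a (fun i => m' i + n i) := ⟨_, rfl⟩
  have hHper : ∀ a ∈ I, Per a (H a) := by
    intro a ha
    rw [hH]
    exact (hper a ha).per m'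
  have hHmean : ∀ a ∈ I, mean (Fintype.card ι) a (H a) = 0 := by
    intro a ha
    rw [hH]
    exact (mean_shift (hI a ha).one_lt.le (hper a ha) m').trans (havg a ha)
  have hHb : ∀ a ∈ I, ∀ n, |H a n| ≤ B a := by
    intro a ha n
    rw [hH]
    exact hb a ha _
  have h1 := box_mom (2 * k) B₁ hB₁ I (fun p => p) H (fun p hp => (hI p hp).one_lt.le) hHper
    (fun a ha n => (hHb a ha n).trans (hB a ha).2) Y hY T hT0 L' hL2 hT
  have h2 := mk_le I (fun p => p) H B (fun p hp => (hI p hp).one_lt.le)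
    (fun p hp q hq hpq => (Nat.coprime_primes (hI p hp) (hI q hq)).2 hpq) hHper hHmean (fun a ha => (hB a ha).1) hHb V hV hBV k hk
  have h4 := (abs_le.1 h1).2
  have h5 := mul_le_mul_of_nonneg_left h2 hP0.le
  refine le_trans (le_of_eq ?_) (show ∑ n ∈ bx L', (∑ a ∈ I, H a n) ^ (2 * k) ≤ _ by
    rw [mul_add]
    linarith)
  refine sum_congr rfl fun n _ => ?_
  congr 1
  refine sum_congr rfl fun p hp => ?_
  rw [hH]
  simp only
  rw [hFp p hp, hm']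

/-- **Large deviations over a box.** -/
theorem deviation {ι : Type} [Fintype ι] [DecidableEq ι] (I : Finset ℕ) (hI : ∀ p ∈ I, p.Prime)
    (G : (p : ℕ) → (ι → ZMod p) → ℝ) (B : ℕ → ℝ) (B₁ : ℝ) (hB : ∀ p ∈ I, 0 ≤ B p ∧ B p ≤ B₁) (hB₁ : 0 ≤ B₁)
    (hG : ∀ p ∈ I, ∀ _ : Fact p.Prime, ex (G p) = 0 ∧ ∀ a, |G p a| ≤ B p)
    (Y : ℕ) (hY : ∀ p ∈ I, p ≤ Y) (k : ℕ) (hk : 1 ≤ k) (V : ℝ) (hV : 0 < V) (hBV : ∑ p ∈ I, B p ^ 2 ≤ V) (m : ι → ℤ) (L : ι → ℕ)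
    (T : ℝ) (hT0 : 0 < T) (hL : ∀ i, T ≤ L i) (hT : Fintype.card ι * (Y : ℝ) ^ (2 * k) ≤ T) (t : ℝ) (ht : 0 < t)
    (P : (ι → ℤ) → Prop) [DecidablePred P] (hP : ∀ ν, P ν → t < |∑ p ∈ I, G p (fun i => (ν i : ZMod p))|) :
    (((tbox m L).filter P).card : ℝ) ≤
      (∏ i, (L i : ℝ)) * ((12 * k * V / t ^ 2) ^ k + (I.card * B₁ / t) ^ (2 * k) * (2 * (Fintype.card ι * (Y : ℝ) ^ (2 * k) / T))) := by
  have h1 := moment I hI G B B₁ hB hB₁ hG Y hY k hk V hV hBV m L T hT0 hL hT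
  have h2 : (((tbox m L).filter P).card : ℝ) * t ^ (2 * k) ≤ ∑ ν ∈ tbox m L, (∑ p ∈ I, G p (fun i => (ν i : ZMod p))) ^ (2 * k) := by
    rw [← nsmul_eq_mul, ← sum_const]
    refine (sum_le_sum fun ν hν => ?_).trans (sum_le_sum_of_subset_of_nonneg (filter_subset _ _) fun ν _ _ => ?_)
    · rw [mem_filter] at hν
      rw [← Even.pow_abs (even_two_mul k) (∑ p ∈ I, G p (fun i => (ν i : ZMod p)))]
      exact pow_le_pow_left₀ ht.le (hP ν hν.2).le _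
    · exact Even.pow_nonneg (even_two_mul k) _
  have h3 : 0 < t ^ (2 * k) := by positivity
  have h4 := h2.trans h1
  rw [← le_div_iff₀ h3] at h4
  refine h4.trans (le_of_eq ?_)
  have e1 : (12 * k * V / t ^ 2) ^ k = (12 * k * V) ^ k / t ^ (2 * k) := by rw [div_pow, ← pow_mul]
  have e2 : (I.card * B₁ / t) ^ (2 * k) = (I.card * B₁) ^ (2 * k) / t ^ (2 * k) := div_pow _ _ _
  rw [e1, e2]
  ring

end Q282HM
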