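import Pool.Agent.Q282.HM.Main
import Pool.Agent.Q282.NA.Fin

/-!
# Complete intersections through linear subspaces over number fields: all varieties at once
-/

set_option autoImplicit false
set_option linter.unusedSectionVars false

namespace Q282HM

open Finset MvPolynomial NumberField
open scoped LinearAlgebra.Projectivization
open Q282RH (tbox)
open Q282GH (zeros Through)
open Q282GP (fam gen tt kun coh)
open Q282NA (pforms pforms_hom Subspaces subspaces_norm Box ncard_box ncard_box' dec hs mem_hs finsum_sub eval_C_map)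
open Q282UV (TE)

section

variable {K : Type} [Field K] [NumberField K] {κ : Type} [Fintype κ] [DecidableEq κ] (ω : Module.Basis κ ℤ (𝓞 K))
  {A : Type} [Fintype A] [DecidableEq A] {ι : A → Type} [∀ a, Fintype (ι a)] [∀ a, DecidableEq (ι a)]

theorem almost_lin (D : ℕ) (hD : 1 ≤ D) (r : ℕ) (hr : 1 ≤ r) (hA : Fintype.card A = r)
    (ν : ℕ) (hν : 1 ≤ ν) (n' : ℕ) {d : A → ℕ} {s m' : ℕ} (hm' : 2 * m' ≤ D)
    (l : Fin s → Fin (D + r - m') → Fin (D + r + 1) → 𝓞 K)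
    {f : (a : A) → ι a → MvPolynomial (Fin (D + r + 1)) (𝓞 K)}
    (hd : ∀ a, s + 2 * ν ≤ d a + 1) (hf : ∀ a, Through (pforms l) (d a) (f a))
    (Δ : MvPolynomial (Σ a, ι a) (𝓞 K))
    (hl : ∀ (p : ℕ) [Fact p.Prime] (ψ : 𝓞 K →+* ZMod p), map ψ Δ ≠ 0 → Subspaces ψ l)
    (b₀ : ℕ) (hα : ∀ (p : ℕ) [Fact p.Prime] (ψ : 𝓞 K →+* ZMod p) (u : (Σ a, ι a) → ZMod p), eval₂ ψ u Δ ≠ 0 →
      ∃ α : Multiset ℂ, α.card = b₀ ∧ (∀ a ∈ α, ‖a‖ ≤ Real.sqrt p ^ D) ∧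
      (zeros (eval₂Hom ψ u) (fam ∅ f) : ℂ) = ((tt (fun _ => 1) D r (p : ℝ) : ℝ) : ℂ) + (-1) ^ D * α.sum) (β : ℝ) (hβ : 0 ≤ β) :
    ∃ C : ℝ, 0 < C ∧ ∀ (k : ℕ), 1 ≤ k → ∀ lam : ℝ, 1 ≤ lam → ∀ (X : ℕ) (m : (Σ a, ι a) × κ → ℤ) (L : (Σ a, ι a) × κ → ℕ),
      (∀ x, C * (X : ℝ) ^ (3 * k) ≤ L x) → ∀ (U : Type) [Fintype U] (y : U → (p : ℕ) → (𝓞 K →+* ZMod p) → ℕ → ℂ),
      (∀ u, ∀ (p : ℕ) [Fact p.Prime] (ψ : 𝓞 K →+* ZMod p), map ψ Δ ≠ 0 → ∀ j ≤ n', ‖y u p ψ j‖ ≤ β) →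
      (Set.ncard {c ∈ Box ω m L | ¬ ∀ u, ∀ X' : ℕ, 2 ≤ X' → X' ≤ X →
        ‖∑ p ∈ Nat.primesLE X', (Real.log p : ℂ) * (YY (fun _ => 1) D r ν n' ∅ f Δ (y u) p c -
          MM (fun _ => 1) D r ν n' Δ (fun _ _ => if 2 * m' = D then s else 0) (y u) p)‖ ≤
          C * (lam * (Real.sqrt (k * X') * Real.log X'))} : ℝ) ≤
      Fintype.card U * X * (1 / lam ^ (2 * k)) * Set.ncard (Box ω m L) := by
  classical
  have key := main ω D hD r hr hA (fun _ => 1) rfl 0 (3 * s + 2 * s ^ 2) ν hν n' (h := pforms l) (e := fun _ => s) (d := d) (f := f)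
    (fun φ => pforms_hom l φ) (fun _ a => hd a) hf ∅ Δ (fun _ _ => if 2 * m' = D then s else 0)
    (fun hodd _ _ => by
      rw [if_neg]
      rintro rfl
      exact (Nat.not_odd_iff_even.2 (even_two_mul m')) hodd)
    (fun p hp ψ _ => by
      have h1 : (zeros ψ (∅ : Set (MvPolynomial (Fin (D + r + 1)) (𝓞 K))) : ℝ) = ∑ j ∈ range (D + r + 1), (p : ℝ) ^ j := by
        unfold zeros
        have h2 : Nat.card {P : ℙ (ZMod p) (Fin (D + r + 1) → ZMod p) // ∀ G ∈ (∅ : Set (MvPolynomial (Fin (D + r + 1)) (𝓞 K))), eval₂ ψ P.rep G = 0} =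
            Nat.card (ℙ (ZMod p) (Fin (D + r + 1) → ZMod p)) :=
          Nat.card_congr (Equiv.subtypeUnivEquiv fun P G hG => absurd hG (Set.notMem_empty _))
        rw [h2, Projectivization.card_of_finrank (ZMod p) _ (by rw [Module.finrank_fin_fun]), Nat.card_zmod]
        push_cast
        rfl
      rw [h1]
      simp)
    (fun p hp ψ _ => by
      have hs0 : (0 : ℝ) ≤ s := Nat.cast_nonneg _
      have : (((if 2 * m' = D then s else 0 : ℕ)) : ℝ) ≤ s := by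
        split_ifs
        · exact le_rfl
        · push_cast
          exact hs0
      nlinarith [sq_nonneg (s : ℝ)])
    (fun p hp ψ hψ => by
      have h1 := subspaces_norm ψ hm' l (hl p ψ hψ) (by omega)
      rw [Nat.card_zmod] at h1
      exact h1) b₀ hα β hβ
  obtain ⟨C, h0, h1⟩ := key
  refine ⟨C, h0, fun k hk lam hlam X m L hL U _ y hy => ?_⟩
  rw [ncard_box, ncard_box']
  obtain ⟨P, hP⟩ : ∃ P : ((Σ a, ι a) × κ → ℤ) → Prop, P = fun v => ¬ ∀ u, ∀ X' : ℕ, 2 ≤ X' → X' ≤ X →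
        ‖∑ p ∈ Nat.primesLE X', (Real.log p : ℂ) * (YY (fun _ => 1) D r ν n' ∅ f Δ (y u) p (dec ω v) -
          MM (fun _ => 1) D r ν n' Δ (fun _ _ => if 2 * m' = D then s else 0) (y u) p)‖ ≤
          C * (lam * (Real.sqrt (k * X') * Real.log X')) := ⟨_, rfl⟩
  have h2 := h1 k hk lam hlam X m L hL U y hy P (fun v hv => by
    rw [hP] at hv
    push Not at hv
    exact hv)
  have h3 : ({v ∈ (tbox m L : Set ((Σ a, ι a) × κ → ℤ)) | ¬ ∀ u, ∀ X' : ℕ, 2 ≤ X' → X' ≤ X →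
        ‖∑ p ∈ Nat.primesLE X', (Real.log p : ℂ) * (YY (fun _ => 1) D r ν n' ∅ f Δ (y u) p (dec ω v) -
          MM (fun _ => 1) D r ν n' Δ (fun _ _ => if 2 * m' = D then s else 0) (y u) p)‖ ≤
          C * (lam * (Real.sqrt (k * X') * Real.log X'))} : Set ((Σ a, ι a) × κ → ℤ)) =
      (((tbox m L).filter P : Finset ((Σ a, ι a) × κ → ℤ)) : Set _) := by
    ext v
    rw [hP, coe_filter]
    rfl
  rw [h3, Set.ncard_coe_finset]
  exact h2

end

end Q282HM
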