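import Pool.Agent.Q282.HM.Fin
import Pool.Agent.Q282.UV.Link

/-!
# The sums of the traces and the predicted sums
-/

set_option autoImplicit false
set_option linter.unusedSectionVars false

namespace Q282HM

open Finset MvPolynomial NumberField
open Q282GH (zeros Through)
open Q282GP (fam gen tt kun coh TT)
open Q282NA (lform pforms hs mem_hs finsum_sub eval_C_map)
open Q282UV (TE prd prd_sum)

section

variable {O : Type} [CommRing O] {n : ℕ}

/-- the forms `f k` have degree `d` and lie in the ideals of the linear subspaces `l i = 0`, and every form of degree `d`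
in all these ideals is a combination of the `f k` -/
def Contains {s c : ℕ} (l : Fin s → Fin c → Fin (n + 1) → O) (d : ℕ) {ι : Type} [Fintype ι]
    (f : ι → MvPolynomial (Fin (n + 1)) O) : Prop :=
  (∀ j, (f j).IsHomogeneous d ∧ ∀ i, f j ∈ Ideal.span (Set.range fun a => lform (l i a))) ∧
  ∀ G : MvPolynomial (Fin (n + 1)) O, G.IsHomogeneous d → (∀ i, G ∈ Ideal.span (Set.range fun a => lform (l i a))) →
    ∃ c : ι → O, G = ∑ j, C (c j) * f j

lemma prod_mem_pforms {s c : ℕ} (l : Fin s → Fin c → Fin (n + 1) → O)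
    (g : Fin s → MvPolynomial (Fin (n + 1)) O)
    (hg : ∀ i, g i ∈ Ideal.span (Set.range fun j => lform (l i j))) : ∏ i, g i ∈ Ideal.span (Set.range (pforms l)) := by
  have h1 : ∏ i, g i ∈ ∏ i, Ideal.span (Set.range fun j => lform (l i j)) := Ideal.prod_mem_prod fun i _ => hg i
  rw [Ideal.prod_span] at h1
  refine Ideal.span_mono ?_ h1
  intro F hF
  rw [Set.mem_finsetProd] at hF
  obtain ⟨G, hG, rfl⟩ := hF
  have h2 : ∀ i, ∃ j, lform (l i j) = G i := fun i => hG (mem_univ i)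
  choose φ hφ using h2
  refine ⟨φ, ?_⟩
  unfold pforms
  exact prod_congr rfl fun i _ => hφ i

lemma Contains.through {s c d : ℕ} {l : Fin s → Fin c → Fin (n + 1) → O} {ι : Type} [Fintype ι]
    {f : ι → MvPolynomial (Fin (n + 1)) O} (hf : Contains l d f) : Through (pforms l) d f where
  hom j := (hf.1 j).1
  mem j := by
    refine ⟨s, ?_⟩
    have h1 := prod_mem_pforms l (fun _ => f j) (hf.1 j).2
    rw [prod_const, card_univ, Fintype.card_fin] at h1
    exact h1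
  gen G hG hG' := by
    refine hf.2 G hG fun i => ?_
    have h1 : Ideal.span (Set.range (pforms l)) ≤ Ideal.span (Set.range fun j => lform (l i j)) := by
      rw [Ideal.span_le]
      rintro _ ⟨φ, rfl⟩
      unfold pforms
      rw [← mul_prod_erase univ _ (mem_univ i)]
      exact Ideal.mul_mem_right _ _ (Ideal.subset_span ⟨φ i, rfl⟩)
    exact h1 hG'

lemma eval_gen {A : Type} [Fintype A] {ι : A → Type} [∀ a, Fintype (ι a)] {F : Type} [Field F] (f : (a : A) → ι a → MvPolynomial (Fin (n + 1)) O)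
    (ψ : O →+* F) (u : (Σ a, ι a) → F) (y : Fin (n + 1) → F) (a : A) :
    eval₂ (eval₂Hom ψ u) y (gen f a) = ∑ j, u ⟨a, j⟩ * eval₂ ψ y (f a j) := by
  unfold gen
  rw [eval₂_sum]
  refine sum_congr rfl fun j _ => ?_
  rw [eval₂_mul, eval₂_C, eval_C_map, coe_eval₂Hom, eval₂_X]

lemma sum_norm (M : Multiset ℂ) (x : ℝ) (h : ∀ a ∈ M, ‖a‖ ≤ x) : ‖M.sum‖ ≤ M.card * x := by
  induction M using Multiset.induction_on with
  | empty => simp
  | cons a s ih =>
    rw [Multiset.sum_cons, Multiset.card_cons]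
    push_cast
    have h5 := h a (Multiset.mem_cons_self a s)
    have h6 := ih fun a' ha' => h a' (Multiset.mem_cons_of_mem ha')
    refine (norm_add_le _ _).trans ?_
    linarith

end

section

variable {K : Type} [Field K] [NumberField K] {A : Type} [Fintype A] [DecidableEq A] {ι : A → Type} [∀ a, Fintype (ι a)]
  [∀ a, DecidableEq (ι a)] {n : ℕ}

/-- the normalised traces of a variety -/
noncomputable def yy (η : (p : ℕ) → (𝓞 K →+* ZMod p) → ℕ → Multiset ℂ) (p : ℕ) (ψ : 𝓞 K →+* ZMod p) (j : ℕ) : ℂ :=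
  (η p ψ j).sum / ((Real.sqrt p ^ j : ℝ) : ℂ)

lemma yy_norm (η : (p : ℕ) → (𝓞 K →+* ZMod p) → ℕ → Multiset ℂ) (p : ℕ) (hp : 0 < p) (ψ : 𝓞 K →+* ZMod p) (j β : ℕ)
    (h1 : (η p ψ j).card ≤ β) (h2 : ∀ a ∈ η p ψ j, ‖a‖ ≤ Real.sqrt p ^ j) : ‖yy η p ψ j‖ ≤ β := by
  have hs : 0 < Real.sqrt p := Real.sqrt_pos.2 (by exact_mod_cast hp)
  unfold yy
  rw [norm_div, Complex.norm_real, Real.norm_of_nonneg (by positivity), div_le_iff₀ (by positivity)]
  refine (sum_norm _ _ h2).trans (mul_le_mul_of_nonneg_right ?_ (by positivity))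
  exact_mod_cast h1

open Classical in
/-- **The sum of the traces.** -/
theorem YY_eq (w : ℕ → ℕ) (D r ν n' : ℕ) (E : Set (MvPolynomial (Fin (n + 1)) (𝓞 K)))
    (f : (a : A) → ι a → MvPolynomial (Fin (n + 1)) (𝓞 K)) (Δ : MvPolynomial (Σ a, ι a) (𝓞 K))
    (α : (p : ℕ) → (𝓞 K →+* ZMod p) → ((Σ a, ι a) → ZMod p) → Multiset ℂ)
    (η : (p : ℕ) → (𝓞 K →+* ZMod p) → ℕ → Multiset ℂ) (c : (Σ a, ι a) → 𝓞 K) (p : ℕ) (hp : p.Prime)
    (hα : ∀ (_ : Fact p.Prime) (ψ : 𝓞 K →+* ZMod p) (u : (Σ a, ι a) → ZMod p), eval₂ ψ u Δ ≠ 0 →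
      (zeros (eval₂Hom ψ u) (fam E f) : ℂ) = ((tt w D r (p : ℝ) : ℝ) : ℂ) + (-1) ^ D * (α p ψ u).sum) :
    YY w D r ν n' E f Δ (yy η) p c = (∑ᶠ ψ : {ψ : 𝓞 K →+* ZMod p // ψ (eval c Δ) ≠ 0},
      (prd (kun (coh w D r p (α p ψ.1 fun s => ψ.1 (c s))) ν) (η p ψ.1) n').sum) / ((Real.sqrt p ^ n' : ℝ) : ℂ) := by
  have hF : Fact p.Prime := ⟨hp⟩
  have : Finite (𝓞 K →+* ZMod p) := (Q282GH.card_homs K (ZMod p)).1
  have hsp : 0 < Real.sqrt p := Real.sqrt_pos.2 (by exact_mod_cast hp.pos)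
  have hsc : (Real.sqrt p : ℂ) ≠ 0 := by exact_mod_cast hsp.ne'
  have hs0 : ((Real.sqrt p ^ n' : ℝ) : ℂ) ≠ 0 := by
    push_cast
    exact pow_ne_zero _ hsc
  unfold YY
  rw [finsum_sub (hs K p) mem_hs (fun ψ => ψ (eval c Δ) ≠ 0) (fun ψ => (prd (kun (coh w D r p (α p ψ fun s => ψ (c s))) ν) (η p ψ) n').sum),
    dif_pos hp, eq_div_iff hs0, sum_mul]
  refine sum_congr rfl fun ψ _ => ?_
  have heq : eval₂ ψ (fun s => ψ (c s)) Δ = ψ (eval c Δ) := by
    have h1 := eval₂_comp_left ψ (RingHom.id (𝓞 K)) c Δ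
    rw [RingHom.comp_id] at h1
    exact h1.symm
  split_ifs with hg
  · rw [prd_sum, sum_mul]
    refine sum_congr rfl fun b hb => ?_
    rw [mem_range] at hb
    rw [trace_XG w D r ν b E f Δ ψ (fun s => ψ (c s)) p (Nat.card_zmod p) hp.pos (by rw [heq]; exact hg) _ (hα hF ψ _ (by rw [heq]; exact hg))]
    unfold yy
    have h5 : Real.sqrt p ^ n' = Real.sqrt p ^ b * Real.sqrt p ^ (n' - b) := by
      rw [← pow_add]
      congr 1
      omega
    rw [h5]
    push_cast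
    have h6 : (Real.sqrt p : ℂ) ^ (n' - b) ≠ 0 := pow_ne_zero _ hsc
    field_simp
    rw [neg_pow]
    ring
  · rw [sum_eq_zero, zero_mul]
    intro b _
    unfold XG
    rw [if_pos (by rw [heq]; by_contra h0; exact hg h0), Complex.ofReal_zero, zero_mul]

open Classical in
/-- **The predicted sum.** -/
theorem MM_eq (w : ℕ → ℕ) (D r ν n' : ℕ) (Δ : MvPolynomial (Σ a, ι a) (𝓞 K)) (z : ℕ) (y : (p : ℕ) → (𝓞 K →+* ZMod p) → ℕ → ℂ) (p : ℕ) (hp : p.Prime) :
    MM w D r ν n' Δ (fun _ _ => z) y p = ∑ᶠ ψ : {ψ : 𝓞 K →+* ZMod p // map ψ Δ ≠ 0},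
      ∑ a ∈ range (n' / 2 + 1), ((∑ l ∈ range (ν + 1), TT w D r ν a l * z ^ l : ℕ) : ℂ) * y p ψ.1 (n' - 2 * a) := by
  have hF : Fact p.Prime := ⟨hp⟩
  have : Finite (𝓞 K →+* ZMod p) := (Q282GH.card_homs K (ZMod p)).1
  unfold MM
  rw [finsum_sub (hs K p) mem_hs (fun ψ => map ψ Δ ≠ 0) (fun ψ => ∑ a ∈ range (n' / 2 + 1),
    ((∑ l ∈ range (ν + 1), TT w D r ν a l * z ^ l : ℕ) : ℂ) * y p ψ (n' - 2 * a)), dif_pos hp]
  refine sum_congr rfl fun ψ _ => ?_
  by_cases h : map ψ Δ = 0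
  · rw [if_neg (not_not.2 h)]
    refine sum_eq_zero fun b _ => ?_
    unfold mt
    rw [if_pos h, Complex.ofReal_zero, zero_mul]
  · rw [if_pos h]
    have h1 : ∀ b ∈ range (n' + 1), ¬ Even b → ((mt w D r ν Δ (fun _ _ => z) p ψ b : ℝ) : ℂ) * ((-1) ^ b * y p ψ (n' - b)) = 0 := by
      intro b _ hb
      unfold mt
      rw [if_neg h]
      have h2 : ∑ l ∈ range (ν + 1), (TE w D r ν b l : ℝ) * (z : ℝ) ^ l = 0 := by
        refine sum_eq_zero fun l _ => ?_
        unfold Q282UV.TE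
        rw [if_neg hb, Nat.cast_zero, zero_mul]
      rw [h2, Complex.ofReal_zero, zero_mul]
    rw [← sum_filter_add_sum_filter_not (range (n' + 1)) Even, add_comm,
      sum_eq_zero (fun b hb => h1 b (mem_filter.1 hb).1 (mem_filter.1 hb).2), zero_add]
    have h2 : (range (n' + 1)).filter Even = (range (n' / 2 + 1)).image (fun a => 2 * a) := by
      ext b
      simp only [mem_filter, mem_range, mem_image]
      constructor
      · rintro ⟨hb, c, hc⟩
        exact ⟨c, by omega, by omega⟩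
      · rintro ⟨c, hc, rfl⟩
        exact ⟨by omega, even_two_mul c⟩
    rw [h2, sum_image (fun a _ b _ h => by omega)]
    refine sum_congr rfl fun a _ => ?_
    unfold mt
    rw [if_neg h, (even_two_mul a).neg_one_pow, one_mul]
    congr 1
    push_cast
    refine sum_congr rfl fun l _ => ?_
    unfold Q282UV.TE
    rw [if_pos (even_two_mul a), Nat.mul_div_cancel_left a two_pos]

end

end Q282HM
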