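import Pool.Agent.Q282.HM.Mean
import Pool.Agent.Q282.HM.Conc

/-!
# The sums over the primes of the traces of the products with all small varieties at once
-/

set_option autoImplicit false
set_option linter.unusedSectionVars false

namespace Q282HM

open Finset MvPolynomial NumberField
open Q282RH (ex tbox logSq logSq_le)
open Q282GH (zeros Through)
open Q282GP (av av_add av_sub av_smul av_sum av_const av_nonneg av_mono abs_av gen fam tt vv)
open Q282AE (bet)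
open Q282UV (TE)
open Q282NA (hs mem_hs card_hs surj_psi uu dec psi_dec av_uu ex_eq_av sum_log_sqrt)

lemma phi_mul (φ : ℂ →ₗ[ℝ] ℝ) (t : ℝ) (z : ℂ) : φ ((t : ℂ) * z) = t * φ z := by
  have h : (t : ℂ) * z = t • z := (Complex.real_smul).symm
  rw [h, map_smul, smul_eq_mul]

section

variable {K : Type} [Field K] [NumberField K] {κ : Type} [Fintype κ] [DecidableEq κ] (ω : Module.Basis κ ℤ (𝓞 K))
  {A : Type} [Fintype A] [DecidableEq A] {ι : A → Type} [∀ a, Fintype (ι a)] [∀ a, DecidableEq (ι a)] {n : ℕ}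

/-- a real part of the centred sum of the traces at the primes above `p` -/
noncomputable def GR (φ : ℂ →ₗ[ℝ] ℝ) (w : ℕ → ℕ) (D r ν n' : ℕ) (E : Set (MvPolynomial (Fin (n + 1)) (𝓞 K)))
    (f : (a : A) → ι a → MvPolynomial (Fin (n + 1)) (𝓞 K)) (Δ : MvPolynomial (Σ a, ι a) (𝓞 K))
    (y : (p : ℕ) → (𝓞 K →+* ZMod p) → ℕ → ℂ) (p : ℕ) (a : (Σ a, ι a) × κ → ZMod p) : ℝ :=
  if hp : p.Prime then
    haveI : Fact p.Prime := ⟨hp⟩
    Real.log p * ∑ ψ ∈ hs K p, ∑ b ∈ range (n' + 1), (XG w D r ν b E f Δ ψ (uu ω ψ a) - av (XG w D r ν b E f Δ ψ)) * φ ((-1) ^ b * y p ψ (n' - b))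
  else 0

/-- the normalised sum of the traces at the primes above `p` -/
noncomputable def YY (w : ℕ → ℕ) (D r ν n' : ℕ) (E : Set (MvPolynomial (Fin (n + 1)) (𝓞 K)))
    (f : (a : A) → ι a → MvPolynomial (Fin (n + 1)) (𝓞 K)) (Δ : MvPolynomial (Σ a, ι a) (𝓞 K))
    (y : (p : ℕ) → (𝓞 K →+* ZMod p) → ℕ → ℂ) (p : ℕ) (c : (Σ a, ι a) → 𝓞 K) : ℂ :=
  if hp : p.Prime then
    haveI : Fact p.Prime := ⟨hp⟩
    ∑ ψ ∈ hs K p, ∑ b ∈ range (n' + 1), ((XG w D r ν b E f Δ ψ (fun s => ψ (c s)) : ℝ) : ℂ) * ((-1) ^ b * y p ψ (n' - b))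
  else 0

open Classical in
/-- the main term for one prime and one degree -/
noncomputable def mt (w : ℕ → ℕ) (D r ν : ℕ) (Δ : MvPolynomial (Σ a, ι a) (𝓞 K)) (z : (p : ℕ) → (𝓞 K →+* ZMod p) → ℕ) (p : ℕ)
    (ψ : 𝓞 K →+* ZMod p) (b : ℕ) : ℝ :=
  if map ψ Δ = 0 then 0 else ∑ l ∈ range (ν + 1), (TE w D r ν b l : ℝ) * (z p ψ : ℝ) ^ l

/-- the main term at the primes above `p` -/
noncomputable def MM (w : ℕ → ℕ) (D r ν n' : ℕ) (Δ : MvPolynomial (Σ a, ι a) (𝓞 K)) (z : (p : ℕ) → (𝓞 K →+* ZMod p) → ℕ)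
    (y : (p : ℕ) → (𝓞 K →+* ZMod p) → ℕ → ℂ) (p : ℕ) : ℂ :=
  if hp : p.Prime then
    haveI : Fact p.Prime := ⟨hp⟩
    ∑ ψ ∈ hs K p, ∑ b ∈ range (n' + 1), ((mt w D r ν Δ z p ψ b : ℝ) : ℂ) * ((-1) ^ b * y p ψ (n' - b))
  else 0

/-- the numerical estimate -/
lemma numeric (c₀ C lam t V X Y d T : ℝ) (k : ℕ) (hk : 1 ≤ k) (hc₀ : 0 < c₀) (hC : 40 * c₀ ≤ C) (hlam : 1 ≤ lam) (g : ℝ) (hg : 0.69 ≤ g)
    (hY : 2 ≤ Y) (hYX : Y ≤ X) (ht : t = C / 4 * (lam * (Real.sqrt (k * Y) * g))) (hV : V = c₀ ^ 2 * (Real.log 4 * (Y * g))) (hd : 0 ≤ d)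
    (hT : (2 * d + 1) * X ^ (3 * k) = T) (N : ℝ) (hN0 : 0 ≤ N) (hN : N ≤ Y) :
    (12 * k * V / t ^ 2) ^ k + (N * (c₀ * g) / t) ^ (2 * k) * (2 * (d * Y ^ (2 * k) / T)) ≤ 1 / 2 * (1 / lam ^ (2 * k)) := by
  have hk0 : (0 : ℝ) < k := by exact_mod_cast hk
  have hk1 : (1 : ℝ) ≤ k := by exact_mod_cast hk
  have hY0 : 0 < Y := by linarith
  have hX0 : 0 < X := by linarith
  have hg0 : 0 < g := by linarith
  have hC0 : 0 < C := by linarith
  have hl0 : 0 < lam := by linarith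
  have ht2 : t ^ 2 = C ^ 2 / 16 * (lam ^ 2 * (k * Y * g ^ 2)) := by
    rw [ht, mul_pow, mul_pow, mul_pow, Real.sq_sqrt (by positivity)]
    ring
  have ht20 : 0 < t ^ 2 := by
    rw [ht2]
    positivity
  have hT0 : 0 < T := by
    rw [← hT]
    positivity
  have hlog4 : Real.log 4 ≤ 1.4 := by
    rw [show (4 : ℝ) = 2 ^ 2 by norm_num, Real.log_pow]
    have := Real.log_two_lt_d9
    push_cast
    linarith
  have hlog40 : 0 < Real.log 4 := Real.log_pos (by norm_num)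
  have hC2 : 1600 * c₀ ^ 2 ≤ C ^ 2 := by
    have := mul_self_le_mul_self (by positivity) hC
    nlinarith
  have h1 : 12 * k * V / t ^ 2 ≤ 1 / 4 * (1 / lam ^ 2) := by
    rw [div_le_iff₀ ht20, ht2, hV]
    have e1 : 1 / 4 * (1 / lam ^ 2) * (C ^ 2 / 16 * (lam ^ 2 * (k * Y * g ^ 2))) = C ^ 2 / 64 * (k * Y * g ^ 2) := by
      field_simp
      ring
    rw [e1]
    have e2 : 12 * k * (c₀ ^ 2 * (Real.log 4 * (Y * g))) = 12 * c₀ ^ 2 * Real.log 4 * (k * Y * g) := by ring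
    rw [e2]
    have e3 : C ^ 2 / 64 * (k * Y * g ^ 2) = C ^ 2 / 64 * g * (k * Y * g) := by ring
    rw [e3]
    refine mul_le_mul_of_nonneg_right ?_ (by positivity)
    have e4 : 12 * c₀ ^ 2 * Real.log 4 ≤ 12 * c₀ ^ 2 * 1.4 := mul_le_mul_of_nonneg_left hlog4 (by positivity)
    have e5 : 1600 * c₀ ^ 2 / 64 * 0.69 ≤ C ^ 2 / 64 * g := mul_le_mul (by linarith) hg (by norm_num) (by positivity)
    have e6 : 0 < c₀ ^ 2 := by positivity
    linarith
  have h2 : (12 * k * V / t ^ 2) ^ k ≤ (1 / 4) ^ k * (1 / lam ^ (2 * k)) := by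
    have e1 : (1 / 4 * (1 / lam ^ 2)) ^ k = (1 / 4) ^ k * (1 / lam ^ (2 * k)) := by
      rw [mul_pow, div_pow 1 (lam ^ 2), one_pow, ← pow_mul]
    rw [← e1]
    refine pow_le_pow_left₀ ?_ h1 k
    have : 0 ≤ V := by
      rw [hV]
      positivity
    positivity
  have h3 : (N * (c₀ * g) / t) ^ 2 ≤ 1 / 4 * (1 / lam ^ 2) * Y := by
    rw [div_pow, div_le_iff₀ ht20, ht2]
    have e1 : 1 / 4 * (1 / lam ^ 2) * Y * (C ^ 2 / 16 * (lam ^ 2 * (k * Y * g ^ 2))) = C ^ 2 / 64 * k * (Y * g) ^ 2 := by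
      field_simp
      ring
    rw [e1]
    have e2 : (N * (c₀ * g)) ^ 2 ≤ c₀ ^ 2 * (Y * g) ^ 2 := by
      have : (N * (c₀ * g)) ^ 2 = c₀ ^ 2 * (N * g) ^ 2 := by ring
      rw [this]
      refine mul_le_mul_of_nonneg_left ?_ (by positivity)
      exact pow_le_pow_left₀ (by positivity) (mul_le_mul_of_nonneg_right hN hg0.le) 2
    refine e2.trans (mul_le_mul_of_nonneg_right ?_ (by positivity))
    have e3 : C ^ 2 / 64 * 1 ≤ C ^ 2 / 64 * k := mul_le_mul_of_nonneg_left hk1 (by positivity)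
    have e4 : 0 < c₀ ^ 2 := by positivity
    linarith
  have h4 : (N * (c₀ * g) / t) ^ (2 * k) * (2 * (d * Y ^ (2 * k) / T)) ≤ (1 / 4) ^ k * (1 / lam ^ (2 * k)) := by
    have e1 : (N * (c₀ * g) / t) ^ (2 * k) ≤ (1 / 4) ^ k * (1 / lam ^ (2 * k)) * Y ^ k := by
      rw [pow_mul]
      refine (pow_le_pow_left₀ (sq_nonneg _) h3 k).trans (le_of_eq ?_)
      rw [mul_pow, mul_pow, div_pow 1 (lam ^ 2), one_pow, ← pow_mul]
    have e2 : Y ^ k * (2 * (d * Y ^ (2 * k) / T)) ≤ 1 := by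
      have e3 : Y ^ k * (2 * (d * Y ^ (2 * k) / T)) = 2 * d * Y ^ (3 * k) / T := by
        have : Y ^ (3 * k) = Y ^ k * Y ^ (2 * k) := by
          rw [← pow_add]
          congr 1
          omega
        rw [this]
        ring
      rw [e3, div_le_one hT0, ← hT]
      refine mul_le_mul (by linarith) (pow_le_pow_left₀ hY0.le hYX _) (by positivity) (by positivity)
    calc (N * (c₀ * g) / t) ^ (2 * k) * (2 * (d * Y ^ (2 * k) / T)) ≤
        ((1 / 4) ^ k * (1 / lam ^ (2 * k)) * Y ^ k) * (2 * (d * Y ^ (2 * k) / T)) := mul_le_mul_of_nonneg_right e1 (by positivity)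
      _ = ((1 / 4) ^ k * (1 / lam ^ (2 * k))) * (Y ^ k * (2 * (d * Y ^ (2 * k) / T))) := by ring
      _ ≤ ((1 / 4) ^ k * (1 / lam ^ (2 * k))) * 1 := mul_le_mul_of_nonneg_left e2 (by positivity)
      _ = _ := mul_one _
  have h5 : ((1 : ℝ) / 4) ^ k ≤ 1 / 4 := by
    calc ((1 : ℝ) / 4) ^ k ≤ (1 / 4) ^ 1 := pow_le_pow_of_le_one (by norm_num) (by norm_num) hk
      _ = 1 / 4 := pow_one _
  have h6 : (1 / 4 : ℝ) ^ k * (1 / lam ^ (2 * k)) ≤ 1 / 4 * (1 / lam ^ (2 * k)) := mul_le_mul_of_nonneg_right h5 (by positivity)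
  linarith

open Classical in
/-- **All varieties and all truncations at once.** -/
theorem main (D : ℕ) (hD : 1 ≤ D) (r : ℕ) (hr : 1 ≤ r) (hA : Fintype.card A = r) (w : ℕ → ℕ) (hw : w (D + r) = 1) (C₀ C₁ : ℝ)
    (ν : ℕ) (hν : 1 ≤ ν) (n' : ℕ) {J : Type} {h : J → MvPolynomial (Fin (n + 1)) (𝓞 K)} {e : J → ℕ} {d : A → ℕ}
    {f : (a : A) → ι a → MvPolynomial (Fin (n + 1)) (𝓞 K)} (hh : ∀ j, (h j).IsHomogeneous (e j))
    (hd : ∀ j a, e j + 2 * ν ≤ d a + 1) (hf : ∀ a, Through h (d a) (f a)) (E : Set (MvPolynomial (Fin (n + 1)) (𝓞 K)))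
    (Δ : MvPolynomial (Σ a, ι a) (𝓞 K)) (z : (p : ℕ) → (𝓞 K →+* ZMod p) → ℕ) (hodd : Odd D → ∀ p ψ, z p ψ = 0)
    (hW : ∀ (p : ℕ) [Fact p.Prime] (ψ : 𝓞 K →+* ZMod p), map ψ Δ ≠ 0 →
      |(zeros ψ E : ℝ) - ∑ j ∈ range (D + r + 1), w j * (p : ℝ) ^ j| ≤ C₀ * Real.sqrt p ^ (2 * r + D - 1))
    (hz : ∀ (p : ℕ) [Fact p.Prime] (ψ : 𝓞 K →+* ZMod p), map ψ Δ ≠ 0 → (z p ψ : ℝ) ≤ C₁)
    (hZ : ∀ (p : ℕ) [Fact p.Prime] (ψ : 𝓞 K →+* ZMod p), map ψ Δ ≠ 0 →
      |(zeros ψ (E ∪ Set.range h) : ℝ) - z p ψ * Real.sqrt p ^ D| ≤ C₁ * Real.sqrt p ^ D / Real.sqrt p)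
    (b₀ : ℕ) (hα : ∀ (p : ℕ) [Fact p.Prime] (ψ : 𝓞 K →+* ZMod p) (u : (Σ a, ι a) → ZMod p), eval₂ ψ u Δ ≠ 0 →
      ∃ α : Multiset ℂ, α.card = b₀ ∧ (∀ a ∈ α, ‖a‖ ≤ Real.sqrt p ^ D) ∧
      (zeros (eval₂Hom ψ u) (fam E f) : ℂ) = ((tt w D r (p : ℝ) : ℝ) : ℂ) + (-1) ^ D * α.sum) (β : ℝ) (hβ : 0 ≤ β) :
    ∃ C : ℝ, 0 < C ∧ ∀ (k : ℕ), 1 ≤ k → ∀ lam : ℝ, 1 ≤ lam → ∀ (X : ℕ) (m : (Σ a, ι a) × κ → ℤ) (L : (Σ a, ι a) × κ → ℕ),
      (∀ x, C * (X : ℝ) ^ (3 * k) ≤ L x) → ∀ (U : Type) [Fintype U] (y : U → (p : ℕ) → (𝓞 K →+* ZMod p) → ℕ → ℂ),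
      (∀ u, ∀ (p : ℕ) [Fact p.Prime] (ψ : 𝓞 K →+* ZMod p), map ψ Δ ≠ 0 → ∀ j ≤ n', ‖y u p ψ j‖ ≤ β) →
      ∀ (P : ((Σ a, ι a) × κ → ℤ) → Prop), (∀ v, P v → ∃ u, ∃ X' : ℕ, 2 ≤ X' ∧ X' ≤ X ∧
        C * (lam * (Real.sqrt (k * X') * Real.log X')) <
          ‖∑ p ∈ Nat.primesLE X', (Real.log p : ℂ) * (YY w D r ν n' E f Δ (y u) p (dec ω v) - MM w D r ν n' Δ z (y u) p)‖) →
      (((tbox m L).filter P).card : ℝ) ≤ Fintype.card U * X * (1 / lam ^ (2 * k)) * ∏ x, (L x : ℝ) := by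
  obtain ⟨Q, hQ0, hQ⟩ := means D hD r hr hA w hw C₀ C₁ ν hν n' hh hd hf E Δ
  obtain ⟨H, hH⟩ : ∃ H : ℝ, H = Module.finrank ℚ K := ⟨_, rfl⟩
  have hH0 : 0 ≤ H := by
    rw [hH]
    exact Nat.cast_nonneg _
  obtain ⟨Bt, hBt⟩ : ∃ Bt : ℝ, Bt = ∑ b ∈ range (n' + 1), (bet w D r b₀ ν b : ℝ) := ⟨_, rfl⟩
  have hBt0 : 0 ≤ Bt := by
    rw [hBt]
    positivity
  obtain ⟨c₀, hc₀⟩ : ∃ c₀ : ℝ, c₀ = 1 + H * (2 * Bt * β) := ⟨_, rfl⟩
  have hc₀1 : 1 ≤ c₀ := by
    rw [hc₀]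
    have : 0 ≤ H * (2 * Bt * β) := by positivity
    linarith
  have hc₀0 : 0 < c₀ := by linarith
  -- the local estimates
  have hloc : ∀ (p : ℕ) [Fact p.Prime] (ψ : 𝓞 K →+* ZMod p), ∀ b ≤ n', |av (XG w D r ν b E f Δ ψ) - mt w D r ν Δ z p ψ b| ≤ Q / Real.sqrt p := by
    intro p hp ψ b hb
    unfold mt
    by_cases hΔ : map ψ Δ = 0
    · have h1 : XG w D r ν b E f Δ ψ = fun _ => 0 := funext (XG_zero w D r ν b E f Δ ψ hΔ)
      rw [if_pos hΔ, h1, av_const, sub_zero, abs_zero]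
      positivity
    · rw [if_neg hΔ]
      have h1 := hQ ψ (surj_psi ψ) (z p ψ) hΔ
      rw [Nat.card_zmod] at h1
      exact h1 (hW p ψ hΔ) (hz p ψ hΔ) (fun h => hodd h p ψ) (hZ p ψ hΔ) b hb
  have hXb : ∀ (p : ℕ) [Fact p.Prime] (ψ : 𝓞 K →+* ZMod p) (b : ℕ) (u : (Σ a, ι a) → ZMod p), |XG w D r ν b E f Δ ψ u| ≤ bet w D r b₀ ν b := by
    intro p hp ψ b u
    exact XG_abs w D r ν b E f Δ ψ u p (Nat.card_zmod p) hp.out.pos b₀ (fun hu => hα p ψ u hu)
  have havb : ∀ (p : ℕ) [Fact p.Prime] (ψ : 𝓞 K →+* ZMod p) (b : ℕ), |av (XG w D r ν b E f Δ ψ)| ≤ bet w D r b₀ ν b := by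
    intro p hp ψ b
    refine (abs_av _).trans ?_
    refine (av_mono _ _ (hXb p ψ b)).trans (le_of_eq ?_)
    rw [av_const]
  refine ⟨40 * c₀ + 8 * (H * (((n' + 1 : ℕ) : ℝ) * (Q * β))) + (2 * Fintype.card ((Σ a, ι a) × κ) + 1), by positivity, ?_⟩
  obtain ⟨C, hC⟩ : ∃ C : ℝ, C = 40 * c₀ + 8 * (H * (((n' + 1 : ℕ) : ℝ) * (Q * β))) + (2 * Fintype.card ((Σ a, ι a) × κ) + 1) := ⟨_, rfl⟩
  rw [← hC]
  obtain ⟨dd, hdd⟩ : ∃ dd : ℝ, dd = Fintype.card ((Σ a, ι a) × κ) := ⟨_, rfl⟩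
  rw [← hdd] at hC
  have hdd0 : 0 ≤ dd := by
    rw [hdd]
    exact Nat.cast_nonneg _
  have hq0 : 0 ≤ H * (((n' + 1 : ℕ) : ℝ) * (Q * β)) := by positivity
  have hC1 : 40 * c₀ ≤ C := by linarith
  have hC2 : 8 * (H * (((n' + 1 : ℕ) : ℝ) * (Q * β))) ≤ C := by linarith
  have hC3 : 2 * dd + 1 ≤ C := by linarith
  have hC0 : 0 < C := by linarith
  intro k hk lam hlam X m L hL U _ y hy P hP
  have hk1 : (1 : ℝ) ≤ k := by exact_mod_cast hk
  have hl0 : 0 < lam := by linarith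
  -- the centred sums
  have hGR : ∀ (u : U) (φ : ℂ →ₗ[ℝ] ℝ), (∀ z, |φ z| ≤ ‖z‖) → ∀ (p : ℕ), p.Prime → ∀ _ : Fact p.Prime,
      ex (GR ω φ w D r ν n' E f Δ (y u) p) = 0 ∧ ∀ a, |GR ω φ w D r ν n' E f Δ (y u) p a| ≤ c₀ * Real.log p := by
    intro u φ hφ p hp hF
    have h1 : GR ω φ w D r ν n' E f Δ (y u) p = fun a => Real.log p * ∑ ψ ∈ hs K p, ∑ b ∈ range (n' + 1),
        (XG w D r ν b E f Δ ψ (uu ω ψ a) - av (XG w D r ν b E f Δ ψ)) * φ ((-1) ^ b * y u p ψ (n' - b)) := by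
      funext a
      unfold GR
      rw [dif_pos hp]
    have hlog0 : 0 ≤ Real.log p := Real.log_natCast_nonneg p
    refine ⟨?_, ?_⟩
    · rw [ex_eq_av, h1, av_smul, av_sum]
      have h3 : ∀ ψ ∈ hs K p, av (fun a : (Σ a, ι a) × κ → ZMod p => ∑ b ∈ range (n' + 1),
          (XG w D r ν b E f Δ ψ (uu ω ψ a) - av (XG w D r ν b E f Δ ψ)) * φ ((-1) ^ b * y u p ψ (n' - b))) = 0 := by
        intro ψ _
        rw [av_sum]
        refine sum_eq_zero fun b _ => ?_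
        have h4 : (fun a : (Σ a, ι a) × κ → ZMod p => (XG w D r ν b E f Δ ψ (uu ω ψ a) - av (XG w D r ν b E f Δ ψ)) * φ ((-1) ^ b * y u p ψ (n' - b))) =
            fun a => φ ((-1) ^ b * y u p ψ (n' - b)) * (XG w D r ν b E f Δ ψ (uu ω ψ a) - av (XG w D r ν b E f Δ ψ)) := by
          funext a
          ring
        rw [h4, av_smul, av_sub, av_const, av_uu ω ψ (XG w D r ν b E f Δ ψ), sub_self, mul_zero]
      rw [sum_congr rfl h3, sum_const_zero, mul_zero]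
    · intro a
      rw [h1]
      simp only
      rw [abs_mul, abs_of_nonneg hlog0, mul_comm]
      refine mul_le_mul_of_nonneg_right ?_ hlog0
      have h3 : ∀ ψ ∈ hs K p, |∑ b ∈ range (n' + 1), (XG w D r ν b E f Δ ψ (uu ω ψ a) - av (XG w D r ν b E f Δ ψ)) * φ ((-1) ^ b * y u p ψ (n' - b))| ≤
          2 * Bt * β := by
        intro ψ _
        by_cases hΔ : map ψ Δ = 0
        · have h4 : ∀ b ∈ range (n' + 1), (XG w D r ν b E f Δ ψ (uu ω ψ a) - av (XG w D r ν b E f Δ ψ)) * φ ((-1) ^ b * y u p ψ (n' - b)) = 0 := by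
            intro b _
            have h5 : XG w D r ν b E f Δ ψ = fun _ => 0 := funext (XG_zero w D r ν b E f Δ ψ hΔ)
            rw [h5, av_const, sub_zero, zero_mul]
          rw [sum_congr rfl h4, sum_const_zero, abs_zero]
          positivity
        · refine (abs_sum_le_sum_abs _ _).trans ?_
          rw [hBt, mul_sum, sum_mul]
          refine sum_le_sum fun b hb => ?_
          rw [abs_mul]
          have h4 := hXb p ψ b (uu ω ψ a)
          have h5 := havb p ψ b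
          have h6 : |XG w D r ν b E f Δ ψ (uu ω ψ a) - av (XG w D r ν b E f Δ ψ)| ≤ 2 * (bet w D r b₀ ν b : ℝ) :=
            (abs_sub _ _).trans (by linarith)
          have h7 : |φ ((-1) ^ b * y u p ψ (n' - b))| ≤ β := by
            refine (hφ _).trans ?_
            rw [norm_mul, norm_pow, norm_neg, norm_one, one_pow, one_mul]
            exact hy u p ψ hΔ _ (Nat.sub_le _ _)
          exact mul_le_mul h6 h7 (abs_nonneg _) (by positivity)
      refine (abs_sum_le_sum_abs _ _).trans ((sum_le_sum h3).trans ?_)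
      rw [sum_const, nsmul_eq_mul, hc₀]
      have h4 : ((hs K p).card : ℝ) ≤ H := by
        rw [hH]
        exact_mod_cast card_hs p
      have h5 := mul_le_mul_of_nonneg_right h4 (by positivity : 0 ≤ 2 * Bt * β)
      linarith
  -- the bound for one variety, one truncation and one real part
  have hone : ∀ (u : U) (φ : ℂ →ₗ[ℝ] ℝ), (∀ z, |φ z| ≤ ‖z‖) → ∀ X' : ℕ, 2 ≤ X' → X' ≤ X →
      ((((tbox m L).filter fun v => C / 4 * (lam * (Real.sqrt (k * X') * Real.log X')) <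
        |∑ p ∈ Nat.primesLE X', GR ω φ w D r ν n' E f Δ (y u) p (fun i => (v i : ZMod p))|).card : ℕ) : ℝ) ≤
        (∏ x, (L x : ℝ)) * (1 / 2 * (1 / lam ^ (2 * k))) := by
    intro u φ hφ X' h2 hX'
    have hX2 : (2 : ℝ) ≤ X' := by exact_mod_cast h2
    have hXX : (X' : ℝ) ≤ X := by exact_mod_cast hX'
    have hlog : (0.69 : ℝ) ≤ Real.log X' := by
      have h3 := Real.log_two_gt_d9
      have h4 : Real.log 2 ≤ Real.log (X' : ℝ) := Real.log_le_log (by norm_num) hX2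
      linarith
    obtain ⟨T, hT⟩ : ∃ T : ℝ, (2 * dd + 1) * (X : ℝ) ^ (3 * k) = T := ⟨_, rfl⟩
    have hXpos : (0 : ℝ) < X := by linarith
    have hT0 : 0 < T := by
      rw [← hT]
      positivity
    obtain ⟨V, hV⟩ : ∃ V : ℝ, V = c₀ ^ 2 * (Real.log 4 * (X' * Real.log X')) := ⟨_, rfl⟩
    have hlog4 : 0 < Real.log 4 := Real.log_pos (by norm_num)
    have hV0 : 0 < V := by
      rw [hV]
      have : 0 < Real.log (X' : ℝ) := by linarith
      positivity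
    have key := deviation (Nat.primesLE X') (fun p hp => Nat.prime_of_mem_primesLE hp) (GR ω φ w D r ν n' E f Δ (y u))
      (fun p => c₀ * Real.log p) (c₀ * Real.log X') (fun p hp => ?_) (by positivity) (fun p hp hF => hGR u φ hφ p (Nat.prime_of_mem_primesLE hp) hF)
      X' (fun p hp => Nat.le_of_mem_primesLE hp) k hk V hV0 ?_ m L T hT0 (fun i => ?_) ?_
      (C / 4 * (lam * (Real.sqrt (k * X') * Real.log X'))) ?_
      (fun v => C / 4 * (lam * (Real.sqrt (k * X') * Real.log X')) <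
        |∑ p ∈ Nat.primesLE X', GR ω φ w D r ν n' E f Δ (y u) p (fun i => (v i : ZMod p))|) (fun v hv => hv)
    · refine key.trans (mul_le_mul_of_nonneg_left ?_ (by positivity))
      rw [← hdd]
      have hcard : (((Nat.primesLE X').card : ℕ) : ℝ) ≤ X' := by
        have h3 : Nat.primesLE X' ⊆ Icc 1 X' := by
          intro p hp
          rw [mem_Icc]
          exact ⟨(Nat.prime_of_mem_primesLE hp).one_lt.le, Nat.le_of_mem_primesLE hp⟩
        have h4 := card_le_card h3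
        rw [Nat.card_Icc] at h4
        exact_mod_cast (by omega : (Nat.primesLE X').card ≤ X')
      exact numeric c₀ C lam _ V X X' dd T k hk hc₀0 hC1 hlam (Real.log X') hlog hX2 hXX rfl hV hdd0 hT _ (Nat.cast_nonneg _) hcard
    · refine ⟨mul_nonneg hc₀0.le (Real.log_natCast_nonneg p), mul_le_mul_of_nonneg_left ?_ hc₀0.le⟩
      exact Real.log_le_log (by exact_mod_cast (Nat.prime_of_mem_primesLE hp).pos) (by exact_mod_cast Nat.le_of_mem_primesLE hp)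
    · rw [hV]
      have h3 := logSq_le X' (by omega)
      unfold logSq at h3
      have h4 : ∑ p ∈ Nat.primesLE X', (c₀ * Real.log p) ^ 2 = c₀ ^ 2 * ∑ p ∈ Nat.primesLE X', (Real.log p) ^ 2 := by
        rw [mul_sum]
        exact sum_congr rfl fun p _ => mul_pow _ _ _
      rw [h4]
      exact mul_le_mul_of_nonneg_left h3 (by positivity)
    · rw [← hT]
      refine le_trans ?_ (hL i)
      exact mul_le_mul_of_nonneg_right hC3 (by positivity)
    · rw [← hT, ← hdd]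
      have h3 : (X' : ℝ) ^ (2 * k) ≤ (X : ℝ) ^ (3 * k) := by
        refine (pow_le_pow_left₀ (by linarith) hXX _).trans ?_
        exact pow_le_pow_right₀ (by linarith) (by omega)
      exact mul_le_mul (by linarith) h3 (by positivity) (by positivity)
    · have : 0 < Real.log (X' : ℝ) := by linarith
      have h3 : 0 < Real.sqrt (k * X') := Real.sqrt_pos.2 (by positivity)
      positivity
  -- the union
  obtain ⟨Pr, hPr⟩ : ∃ Pr : (ℂ →ₗ[ℝ] ℝ) → U → ℕ → Finset ((Σ a, ι a) × κ → ℤ), Pr = fun φ u (X' : ℕ) =>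
      (tbox m L).filter fun v => C / 4 * (lam * (Real.sqrt (k * X') * Real.log X')) <
        |∑ p ∈ Nat.primesLE X', GR ω φ w D r ν n' E f Δ (y u) p (fun i => (v i : ZMod p))| := ⟨_, rfl⟩
  have hre : ∀ z : ℂ, |Complex.reLm z| ≤ ‖z‖ := fun z => Complex.abs_re_le_norm z
  have him : ∀ z : ℂ, |Complex.imLm z| ≤ ‖z‖ := fun z => Complex.abs_im_le_norm z
  have hsub : (tbox m L).filter P ⊆ (univ : Finset U).biUnion fun u => (Icc 2 X).biUnion fun X' => Pr Complex.reLm u X' ∪ Pr Complex.imLm u X' := by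
    intro v hv
    rw [mem_filter] at hv
    obtain ⟨u, X', h2, hX', hlt⟩ := hP v hv.2
    rw [mem_biUnion]
    refine ⟨u, mem_univ u, ?_⟩
    rw [mem_biUnion]
    refine ⟨X', mem_Icc.2 ⟨h2, hX'⟩, ?_⟩
    obtain ⟨Sg, hSg⟩ : ∃ Sg : ℂ, Sg = ∑ p ∈ Nat.primesLE X', (Real.log p : ℂ) * (YY w D r ν n' E f Δ (y u) p (dec ω v) - MM w D r ν n' Δ z (y u) p) := ⟨_, rfl⟩
    rw [← hSg] at hlt
    have hX2 : (2 : ℝ) ≤ X' := by exact_mod_cast h2
    have hlog : (0.69 : ℝ) ≤ Real.log X' := by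
      have h3 := Real.log_two_gt_d9
      have h4 : Real.log 2 ≤ Real.log (X' : ℝ) := Real.log_le_log (by norm_num) hX2
      linarith
    obtain ⟨R, hR⟩ : ∃ R : ℝ, R = lam * (Real.sqrt (k * X') * Real.log X') := ⟨_, rfl⟩
    rw [← hR] at hlt
    -- the mean values
    have hphi : ∀ φ : ℂ →ₗ[ℝ] ℝ, (∀ z, |φ z| ≤ ‖z‖) → |φ Sg| ≤
        |∑ p ∈ Nat.primesLE X', GR ω φ w D r ν n' E f Δ (y u) p (fun i => (v i : ZMod p))| + C / 4 * R := by
      intro φ hφ
      have hsum : φ Sg = ∑ p ∈ Nat.primesLE X', GR ω φ w D r ν n' E f Δ (y u) p (fun x => (v x : ZMod p)) +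
          ∑ p ∈ Nat.primesLE X', Real.log p * (if hp : p.Prime then haveI : Fact p.Prime := ⟨hp⟩
            ∑ ψ ∈ hs K p, ∑ b ∈ range (n' + 1), (av (XG w D r ν b E f Δ ψ) - mt w D r ν Δ z p ψ b) * φ ((-1) ^ b * y u p ψ (n' - b)) else 0) := by
        rw [hSg, map_sum, ← sum_add_distrib]
        refine sum_congr rfl fun p hp => ?_
        have hprime := Nat.prime_of_mem_primesLE hp
        have : Fact p.Prime := ⟨hprime⟩
        unfold GR YY MM
        rw [dif_pos hprime, dif_pos hprime, dif_pos hprime, dif_pos hprime, phi_mul, ← mul_add, ← sum_sub_distrib, map_sum, ← sum_add_distrib]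
        congr 1
        refine sum_congr rfl fun ψ _ => ?_
        rw [← sum_sub_distrib, map_sum, ← sum_add_distrib]
        refine sum_congr rfl fun b _ => ?_
        rw [map_sub, phi_mul, phi_mul, psi_dec]
        ring
      have herr : |∑ p ∈ Nat.primesLE X', Real.log p * (if hp : p.Prime then haveI : Fact p.Prime := ⟨hp⟩
            ∑ ψ ∈ hs K p, ∑ b ∈ range (n' + 1), (av (XG w D r ν b E f Δ ψ) - mt w D r ν Δ z p ψ b) * φ ((-1) ^ b * y u p ψ (n' - b)) else 0)| ≤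
          (H * (((n' + 1 : ℕ) : ℝ) * (Q * β))) * (2 * (Real.sqrt X' * Real.log X')) := by
        refine (abs_sum_le_sum_abs _ _).trans ?_
        refine le_trans ?_ (mul_le_mul_of_nonneg_left (sum_log_sqrt X') hq0)
        rw [mul_sum]
        refine sum_le_sum fun p hp => ?_
        have hprime := Nat.prime_of_mem_primesLE hp
        have hF : Fact p.Prime := ⟨hprime⟩
        rw [dif_pos hprime, abs_mul, abs_of_nonneg (Real.log_natCast_nonneg p)]
        have h3 : ∀ ψ ∈ hs K p, |∑ b ∈ range (n' + 1), (av (XG w D r ν b E f Δ ψ) - mt w D r ν Δ z p ψ b) * φ ((-1) ^ b * y u p ψ (n' - b))| ≤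
            ((n' + 1 : ℕ) : ℝ) * (Q * β) / Real.sqrt p := by
          intro ψ _
          by_cases hΔ : map ψ Δ = 0
          · have h4 : ∀ b ∈ range (n' + 1), (av (XG w D r ν b E f Δ ψ) - mt w D r ν Δ z p ψ b) * φ ((-1) ^ b * y u p ψ (n' - b)) = 0 := by
              intro b _
              have h5 : XG w D r ν b E f Δ ψ = fun _ => 0 := funext (XG_zero w D r ν b E f Δ ψ hΔ)
              unfold mt
              rw [h5, av_const, if_pos hΔ, sub_zero, zero_mul]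
            rw [sum_congr rfl h4, sum_const_zero, abs_zero]
            positivity
          · refine (abs_sum_le_sum_abs _ _).trans ?_
            have h4 : ∀ b ∈ range (n' + 1), |(av (XG w D r ν b E f Δ ψ) - mt w D r ν Δ z p ψ b) * φ ((-1) ^ b * y u p ψ (n' - b))| ≤
                Q / Real.sqrt p * β := by
              intro b hb
              rw [mem_range] at hb
              rw [abs_mul]
              refine mul_le_mul (hloc p ψ b (by omega)) ?_ (abs_nonneg _) (by positivity)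
              refine (hφ _).trans ?_
              rw [norm_mul, norm_pow, norm_neg, norm_one, one_pow, one_mul]
              exact hy u p ψ hΔ _ (Nat.sub_le _ _)
            refine (sum_le_sum h4).trans (le_of_eq ?_)
            rw [sum_const, card_range, nsmul_eq_mul]
            ring
        have h4 : |∑ ψ ∈ hs K p, ∑ b ∈ range (n' + 1), (av (XG w D r ν b E f Δ ψ) - mt w D r ν Δ z p ψ b) * φ ((-1) ^ b * y u p ψ (n' - b))| ≤
            H * (((n' + 1 : ℕ) : ℝ) * (Q * β) / Real.sqrt p) := by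
          refine (abs_sum_le_sum_abs _ _).trans ((sum_le_sum h3).trans ?_)
          rw [sum_const, nsmul_eq_mul]
          refine mul_le_mul_of_nonneg_right ?_ (by positivity)
          rw [hH]
          exact_mod_cast card_hs p
        refine (mul_le_mul_of_nonneg_left h4 (Real.log_natCast_nonneg p)).trans (le_of_eq ?_)
        ring
      have hbig : (H * (((n' + 1 : ℕ) : ℝ) * (Q * β))) * (2 * (Real.sqrt X' * Real.log X')) ≤ C / 4 * R := by
        have h3 : Real.sqrt X' ≤ Real.sqrt (k * X') := by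
          refine Real.sqrt_le_sqrt ?_
          nlinarith
        have h4 : Real.sqrt X' * Real.log X' ≤ R := by
          rw [hR]
          have h5 : 0 ≤ Real.sqrt (k * X') * Real.log X' := mul_nonneg (Real.sqrt_nonneg _) (by linarith)
          have h6 : Real.sqrt X' * Real.log X' ≤ Real.sqrt (k * X') * Real.log X' := mul_le_mul_of_nonneg_right h3 (by linarith)
          nlinarith
        have h5 : 0 ≤ R := le_trans (mul_nonneg (Real.sqrt_nonneg _) (by linarith)) h4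
        calc (H * (((n' + 1 : ℕ) : ℝ) * (Q * β))) * (2 * (Real.sqrt X' * Real.log X')) =
            2 * (H * (((n' + 1 : ℕ) : ℝ) * (Q * β))) * (Real.sqrt X' * Real.log X') := by ring
          _ ≤ 2 * (H * (((n' + 1 : ℕ) : ℝ) * (Q * β))) * R := mul_le_mul_of_nonneg_left h4 (by positivity)
          _ ≤ C / 4 * R := mul_le_mul_of_nonneg_right (by linarith) h5
      rw [hsum]
      exact (abs_add_le _ _).trans (by linarith)
    have hnorm : ‖Sg‖ ≤ |Complex.reLm Sg| + |Complex.imLm Sg| := Complex.norm_le_abs_re_add_abs_im Sg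
    rw [hPr, mem_union, mem_filter, mem_filter, ← hR]
    by_contra hcon
    push Not at hcon
    have h3 := hcon.1 hv.1
    have h4 := hcon.2 hv.1
    have h5 := hphi Complex.reLm hre
    have h6 := hphi Complex.imLm him
    linarith
  have hcardP : (((tbox m L).filter P).card : ℝ) ≤ ∑ u : U, ∑ X' ∈ Icc 2 X, (((Pr Complex.reLm u X').card : ℝ) + ((Pr Complex.imLm u X').card : ℝ)) := by
    have h1 := (card_le_card hsub).trans card_biUnion_le
    have h2 : ∑ u : U, ((Icc 2 X).biUnion fun X' => Pr Complex.reLm u X' ∪ Pr Complex.imLm u X').card ≤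
        ∑ u : U, ∑ X' ∈ Icc 2 X, ((Pr Complex.reLm u X').card + (Pr Complex.imLm u X').card) :=
      sum_le_sum fun u _ => card_biUnion_le.trans (sum_le_sum fun X' _ => card_union_le _ _)
    exact_mod_cast h1.trans h2
  refine hcardP.trans ?_
  have h7 : ∀ u ∈ (univ : Finset U), ∑ X' ∈ Icc 2 X, (((Pr Complex.reLm u X').card : ℝ) + ((Pr Complex.imLm u X').card : ℝ)) ≤
      X * ((∏ x, (L x : ℝ)) * (1 / lam ^ (2 * k))) := by
    intro u _
    have h8 : ∀ X' ∈ Icc 2 X, ((Pr Complex.reLm u X').card : ℝ) + ((Pr Complex.imLm u X').card : ℝ) ≤ (∏ x, (L x : ℝ)) * (1 / lam ^ (2 * k)) := by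
      intro X' hX'
      rw [mem_Icc] at hX'
      have h9 := hone u Complex.reLm hre X' hX'.1 hX'.2
      have h10 := hone u Complex.imLm him X' hX'.1 hX'.2
      rw [hPr]
      simp only
      linarith
    refine (sum_le_sum h8).trans ?_
    rw [sum_const, nsmul_eq_mul, Nat.card_Icc]
    refine mul_le_mul_of_nonneg_right ?_ (by positivity)
    exact_mod_cast (by omega : X + 1 - 2 ≤ X)
  refine (sum_le_sum h7).trans (le_of_eq ?_)
  rw [sum_const, card_univ, nsmul_eq_mul]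
  ring

end

end Q282HM
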