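import Pool.Agent.Q282.NA.Lin
import Pool.Agent.Q282.UV.Mean

/-!
# The mean values and bounds of the traces on the cohomology of all degrees of the powers modulo a prime
-/

set_option autoImplicit false
set_option linter.unusedSectionVars false

namespace Q282HM

open Finset MvPolynomial
open Q282MM (gm)
open Q282GH (zeros Through)
open Q282GP (av av_add av_sub av_smul av_sum av_const av_nonneg av_mono abs_av gen fam oc tt vv oser kun coh TT cc mid expand)
open Q282GS (co co_even oser_odd trace_gen)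
open Q282AE (bet)
open Q282OR (kun_le')
open Q282UV (TE co_zero)
open Q282NA (tau pow_diff)

section

variable {O : Type} [CommRing O] {F : Type} [Field F] {A : Type} [Fintype A] {ι : A → Type} [∀ a, Fintype (ι a)] {n : ℕ}

open Classical in
/-- the normalised trace on the cohomology of degree `b` of the power, without the sign, zero outside the open set -/
noncomputable def XG (w : ℕ → ℕ) (D r ν b : ℕ) (E : Set (MvPolynomial (Fin (n + 1)) O))
    (f : (a : A) → ι a → MvPolynomial (Fin (n + 1)) O) (Δ : MvPolynomial (Σ a, ι a) O)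
    (ψ : O →+* F) (u : (Σ a, ι a) → F) : ℝ :=
  if eval₂ ψ u Δ = 0 then 0 else ∑ κ ∈ range (ν + 1), (co w D r ν b κ : ℝ) * tau w D r E f ψ u ^ κ

lemma XG_zero (w : ℕ → ℕ) (D r ν b : ℕ) (E : Set (MvPolynomial (Fin (n + 1)) O)) (f : (a : A) → ι a → MvPolynomial (Fin (n + 1)) O)
    (Δ : MvPolynomial (Σ a, ι a) O) (ψ : O →+* F) (h : map ψ Δ = 0) (u : (Σ a, ι a) → F) : XG w D r ν b E f Δ ψ u = 0 := by
  unfold XG
  rw [if_pos]
  rw [← MvPolynomial.eval_map, h, map_zero]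

/-- **The trace on the cohomology of the power of a member.** -/
theorem trace_XG (w : ℕ → ℕ) (D r ν b : ℕ) (E : Set (MvPolynomial (Fin (n + 1)) O)) (f : (a : A) → ι a → MvPolynomial (Fin (n + 1)) O)
    (Δ : MvPolynomial (Σ a, ι a) O) (ψ : O →+* F) (u : (Σ a, ι a) → F) (q : ℕ) (hq : Nat.card F = q) (hq0 : 0 < q)
    (hg : eval₂ ψ u Δ ≠ 0) (α : Multiset ℂ)
    (hα : (zeros (eval₂Hom ψ u) (fam E f) : ℂ) = ((tt w D r (q : ℝ) : ℝ) : ℂ) + (-1) ^ D * α.sum) :
    (kun (coh w D r q α) ν b).sum = (((-Real.sqrt q) ^ b * XG w D r ν b E f Δ ψ u : ℝ) : ℂ) := by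
  have hq0' : (0 : ℝ) < q := by exact_mod_cast hq0
  unfold XG
  rw [if_neg hg]
  have hu0 : (Real.sqrt q : ℂ) ≠ 0 := by
    rw [Complex.ofReal_ne_zero]
    exact (Real.sqrt_pos.2 hq0').ne'
  have h3 : α.sum = (-1) ^ D * (((tau w D r E f ψ u : ℝ) : ℂ) * (Real.sqrt q : ℂ) ^ D) := by
    have h4 : ((tau w D r E f ψ u : ℝ) : ℂ) * (Real.sqrt q : ℂ) ^ D = (-1) ^ D * α.sum := by
      unfold tau
      rw [hq]
      push_cast
      rw [div_mul_cancel₀ _ (pow_ne_zero _ hu0), hα]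
      ring
    rw [h4, ← mul_assoc, ← mul_pow]
    norm_num
  have h4 := trace_gen w D r q α (Real.sqrt q : ℂ) _ (by
    rw [← Complex.ofReal_pow, Real.sq_sqrt hq0'.le]
    simp) h3 ν b
  rw [h4]
  push_cast
  rfl

/-- the bound of Deligne -/
theorem XG_abs (w : ℕ → ℕ) (D r ν b : ℕ) (E : Set (MvPolynomial (Fin (n + 1)) O)) (f : (a : A) → ι a → MvPolynomial (Fin (n + 1)) O)
    (Δ : MvPolynomial (Σ a, ι a) O) (ψ : O →+* F) (u : (Σ a, ι a) → F) (q : ℕ) (hq : Nat.card F = q) (hq0 : 0 < q) (b₀ : ℕ)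
    (hα : eval₂ ψ u Δ ≠ 0 → ∃ α : Multiset ℂ, α.card = b₀ ∧ (∀ a ∈ α, ‖a‖ ≤ Real.sqrt q ^ D) ∧
      (zeros (eval₂Hom ψ u) (fam E f) : ℂ) = ((tt w D r (q : ℝ) : ℝ) : ℂ) + (-1) ^ D * α.sum) :
    |XG w D r ν b E f Δ ψ u| ≤ bet w D r b₀ ν b := by
  have hq0' : (0 : ℝ) < q := by exact_mod_cast hq0
  by_cases hg : eval₂ ψ u Δ = 0
  · unfold XG
    rw [if_pos hg, abs_zero]
    exact Nat.cast_nonneg _
  · obtain ⟨α, h1, h2, h3⟩ := hα hg
    have h4 := trace_XG w D r ν b E f Δ ψ u q hq hq0 hg α h3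
    have h5 := kun_le' w D r b₀ ν b q α h1 h2
    have hs : 0 < Real.sqrt q := Real.sqrt_pos.2 hq0'
    rw [h4, Complex.norm_real, Real.norm_eq_abs, abs_mul, abs_pow, abs_neg, abs_of_pos hs, mul_comm] at h5
    exact le_of_mul_le_mul_right h5 (pow_pos hs _)

end

variable {O : Type} [CommRing O] {A : Type} [Fintype A] [DecidableEq A] {ι : A → Type} [∀ a, Fintype (ι a)] [∀ a, DecidableEq (ι a)] {n : ℕ}

open Classical in
/-- **The mean values.** -/
theorem means (D : ℕ) (hD : 1 ≤ D) (r : ℕ) (hr : 1 ≤ r) (hA : Fintype.card A = r) (w : ℕ → ℕ) (hw : w (D + r) = 1) (C₀ C₁ : ℝ)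
    (ν : ℕ) (hν : 1 ≤ ν) (n' : ℕ) {J : Type} {h : J → MvPolynomial (Fin (n + 1)) O} {e : J → ℕ} {d : A → ℕ}
    {f : (a : A) → ι a → MvPolynomial (Fin (n + 1)) O} (hh : ∀ j, (h j).IsHomogeneous (e j))
    (hd : ∀ j a, e j + 2 * ν ≤ d a + 1) (hf : ∀ a, Through h (d a) (f a)) (E : Set (MvPolynomial (Fin (n + 1)) O))
    (Δ : MvPolynomial (Σ a, ι a) O) :
    ∃ K : ℝ, 0 ≤ K ∧ ∀ {F : Type} [Field F] [Fintype F] (ψ : O →+* F) (_ : Function.Surjective ψ) (z₀ : ℕ), map ψ Δ ≠ 0 →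
      |(zeros ψ E : ℝ) - ∑ j ∈ range (D + r + 1), w j * (Nat.card F : ℝ) ^ j| ≤ C₀ * Real.sqrt (Nat.card F) ^ (2 * r + D - 1) →
      (z₀ : ℝ) ≤ C₁ → (Odd D → z₀ = 0) →
      |(zeros ψ (E ∪ Set.range h) : ℝ) - z₀ * Real.sqrt (Nat.card F) ^ D| ≤ C₁ * Real.sqrt (Nat.card F) ^ D / Real.sqrt (Nat.card F) →
      ∀ b ≤ n', |av (XG w D r ν b E f Δ ψ) - ∑ l ∈ range (ν + 1), (TE w D r ν b l : ℝ) * (z₀ : ℝ) ^ l| ≤ K / Real.sqrt (Nat.card F) := by
  obtain ⟨K, hK0, hK⟩ := Q282AE.good_mom D r hD hr w hw |C₀| (2 * |C₁|) Δ.totalDegree (abs_nonneg _) (by positivity) (Nat.cast_nonneg _) ν hν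
  obtain ⟨G, hG⟩ : ∃ G : ℝ, G = ∑ κ ∈ range (ν + 1), ∑ l ∈ range (κ + 1), (κ.choose l : ℝ) * gm l * (|C₁| * (1 + |C₁|) ^ κ) := ⟨_, rfl⟩
  obtain ⟨c₁, hc₁⟩ : ∃ c₁ : ℝ, c₁ = ∑ b ∈ range (n' + 1), ∑ κ ∈ range (ν + 1), (co w D r ν b κ : ℝ) := ⟨_, rfl⟩
  obtain ⟨c₃, hc₃⟩ : ∃ c₃ : ℝ, c₃ = ∑ b ∈ range (n' + 1), ∑ l ∈ range (ν + 1), (TE w D r ν b l : ℝ) := ⟨_, rfl⟩
  obtain ⟨B, hB⟩ : ∃ B : ℝ, B = 1 + 2 * |C₁| := ⟨_, rfl⟩
  have hB1 : 1 ≤ B := by
    rw [hB]
    have : 0 ≤ |C₁| := abs_nonneg _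
    linarith
  obtain ⟨Z₁, hZ₁⟩ : ∃ Z₁ : ℝ, Z₁ = ν * B ^ ν * |C₁| := ⟨_, rfl⟩
  have hZ₁0 : 0 ≤ Z₁ := by
    rw [hZ₁]
    positivity
  have hG0 : 0 ≤ G := by
    rw [hG]
    positivity
  have hc₁0 : 0 ≤ c₁ := by
    rw [hc₁]
    positivity
  have hc₃0 : 0 ≤ c₃ := by
    rw [hc₃]
    positivity
  refine ⟨c₁ * (K + G) + c₃ * Z₁, by positivity, ?_⟩
  intro F _ _ ψ hψ z₀ hΔ hW hz₀ hodd hZ b hb
  rw [Nat.card_eq_fintype_card] at *
  have hp0 : (0 : ℝ) < Fintype.card F := Q282AE.card_pos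
  have hp1 : (1 : ℝ) ≤ Fintype.card F := Q282AE.card_one
  obtain ⟨s, hs⟩ : ∃ s : ℝ, s = Real.sqrt (Fintype.card F) := ⟨_, rfl⟩
  have hs1 : 1 ≤ s := by
    rw [hs]
    exact Real.one_le_sqrt.2 hp1
  have hs0 : 0 < s := by linarith
  have hsD : 0 < s ^ D := by positivity
  have hC1 : |C₁| = C₁ := abs_of_nonneg ((Nat.cast_nonneg z₀).trans hz₀)
  have hZ1 : (zeros ψ (E ∪ Set.range h) : ℝ) ≤ 2 * |C₁| * s ^ D := by
    rw [← hs] at hZ
    have h1 := (abs_le.1 hZ).2
    have h2 : C₁ * s ^ D / s ≤ |C₁| * s ^ D := by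
      rw [div_le_iff₀ hs0, hC1]
      have : 0 ≤ C₁ * s ^ D := by
        rw [← hC1]
        positivity
      nlinarith
    have h3 : z₀ * s ^ D ≤ |C₁| * s ^ D := by
      rw [hC1]
      exact mul_le_mul_of_nonneg_right hz₀ hsD.le
    linarith
  have hbad : ((univ.filter fun u : (Σ a, ι a) → F => eval₂ ψ u Δ = 0).card : ℝ) ≤
      (Δ.totalDegree : ℝ) * (Fintype.card F : ℝ) ^ Fintype.card (Σ a, ι a) / Fintype.card F := by
    have h1 := Q282GH.sz (map ψ Δ) hΔ
    rw [le_div_iff₀ hp0]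
    rw [Nat.card_eq_fintype_card, Fintype.card_subtype] at h1
    have h2 : (univ.filter fun u : (Σ a, ι a) → F => eval u (map ψ Δ) = 0) = univ.filter fun u => eval₂ ψ u Δ = 0 := by
      refine filter_congr fun u _ => ?_
      rw [MvPolynomial.eval_map]
    rw [h2] at h1
    refine h1.trans (mul_le_mul_of_nonneg_right ?_ (by positivity))
    have h3 : (map ψ Δ).totalDegree ≤ Δ.totalDegree := by
      unfold totalDegree
      exact Finset.sup_mono (support_map_subset _ _)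
    exact_mod_cast h3
  obtain ⟨z, hz⟩ : ∃ z : ℝ, z = (zeros ψ (E ∪ Set.range h) : ℝ) / s ^ D := ⟨_, rfl⟩
  have hz0 : 0 ≤ z := by
    rw [hz]
    positivity
  have hzB : |z| ≤ B := by
    rw [abs_of_nonneg hz0, hz, div_le_iff₀ hsD, hB]
    nlinarith
  have hz₀B : |(z₀ : ℝ)| ≤ B := by
    rw [abs_of_nonneg (Nat.cast_nonneg z₀), hB, hC1]
    linarith [(Nat.cast_nonneg z₀ : (0 : ℝ) ≤ z₀)]
  have hzz : |z - z₀| ≤ |C₁| / s := by
    rw [← hs] at hZ
    have h1 : z - z₀ = ((zeros ψ (E ∪ Set.range h) : ℝ) - z₀ * s ^ D) / s ^ D := by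
      rw [hz]
      field_simp
    rw [h1, abs_div, abs_of_pos hsD, div_le_iff₀ hsD, hC1]
    calc _ ≤ C₁ * s ^ D / s := hZ
      _ = C₁ / s * s ^ D := by ring
  have hmom : ∀ κ ≤ ν, |av (fun u => if eval₂ ψ u Δ = 0 then 0 else tau w D r E f ψ u ^ κ) -
        ∑ l ∈ range (κ + 1), (κ.choose l : ℝ) * gm l * (z + vv w D r) ^ (κ - l)| ≤ K / s := by
    intro κ hκ
    have h1 := (hK ψ hψ hA hh hd hf E (fun u => eval₂ ψ u Δ = 0) hbad
      (hW.trans (mul_le_mul_of_nonneg_right (le_abs_self _) (by positivity)))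
      (by rw [← hs]; exact hZ1) κ hκ).1
    rw [← hs, ← hz] at h1
    unfold tau
    rw [Nat.card_eq_fintype_card, ← hs]
    exact h1
  have hXX : ∀ u, XG w D r ν b E f Δ ψ u =
      ∑ κ ∈ range (ν + 1), (co w D r ν b κ : ℝ) * (if eval₂ ψ u Δ = 0 then 0 else tau w D r E f ψ u ^ κ) := by
    intro u
    unfold XG
    split_ifs
    · simp
    · rfl
  have hcb1 : ∑ κ ∈ range (ν + 1), (co w D r ν b κ : ℝ) ≤ c₁ := by
    rw [hc₁]
    exact single_le_sum (f := fun b => ∑ κ ∈ range (ν + 1), (co w D r ν b κ : ℝ)) (fun _ _ => by positivity) (mem_range.2 (by omega))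
  have hcb3 : ∑ l ∈ range (ν + 1), (TE w D r ν b l : ℝ) ≤ c₃ := by
    rw [hc₃]
    exact single_le_sum (f := fun b => ∑ l ∈ range (ν + 1), (TE w D r ν b l : ℝ)) (fun _ _ => by positivity) (mem_range.2 (by omega))
  have hmain : |av (XG w D r ν b E f Δ ψ) - ∑ l ∈ range (ν + 1), (TE w D r ν b l : ℝ) * z ^ l| ≤ c₁ * (K + G) / s := by
    -- the comparison with the main terms
    have h1 : |av (XG w D r ν b E f Δ ψ) - ∑ κ ∈ range (ν + 1), (co w D r ν b κ : ℝ) *
        ∑ l ∈ range (κ + 1), (κ.choose l : ℝ) * gm l * (z + vv w D r) ^ (κ - l)| ≤ c₁ * K / s := by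
      have h2 : XG w D r ν b E f Δ ψ = fun u => ∑ κ ∈ range (ν + 1), (co w D r ν b κ : ℝ) *
          (if eval₂ ψ u Δ = 0 then 0 else tau w D r E f ψ u ^ κ) := funext hXX
      rw [h2, av_sum, ← sum_sub_distrib]
      refine (abs_sum_le_sum_abs _ _).trans ?_
      have h3 : ∀ κ ∈ range (ν + 1), |av (fun u => (co w D r ν b κ : ℝ) * (if eval₂ ψ u Δ = 0 then 0 else tau w D r E f ψ u ^ κ)) -
          (co w D r ν b κ : ℝ) * ∑ l ∈ range (κ + 1), (κ.choose l : ℝ) * gm l * (z + vv w D r) ^ (κ - l)| ≤ (co w D r ν b κ : ℝ) * (K / s) := by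
        intro κ hκ
        rw [mem_range] at hκ
        rw [av_smul, ← mul_sub, abs_mul, abs_of_nonneg (Nat.cast_nonneg _ : (0 : ℝ) ≤ _)]
        exact mul_le_mul_of_nonneg_left (hmom κ (by omega)) (Nat.cast_nonneg _)
      refine (sum_le_sum h3).trans ?_
      rw [← sum_mul, mul_div_assoc]
      exact mul_le_mul_of_nonneg_right hcb1 (by positivity)
    have h2 : |∑ κ ∈ range (ν + 1), (co w D r ν b κ : ℝ) * ∑ l ∈ range (κ + 1), (κ.choose l : ℝ) * gm l * (z + vv w D r) ^ (κ - l) -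
        ∑ l ∈ range (ν + 1), (TE w D r ν b l : ℝ) * z ^ l| ≤ c₁ * G / s := by
      rcases Nat.even_or_odd b with hb2 | hb2
      · have h3 : ∑ l ∈ range (ν + 1), (TE w D r ν b l : ℝ) * z ^ l = ∑ κ ∈ range (ν + 1), (co w D r ν b κ : ℝ) *
            ∑ l ∈ range (κ + 1), (κ.choose l : ℝ) * gm l * (z + vv w D r) ^ (κ - l) := by
          unfold TE
          simp only [if_pos hb2]
          unfold TT
          push_cast
          have h4 : ∀ κ ∈ range (ν + 1), (co w D r ν b κ : ℝ) * ∑ l ∈ range (κ + 1), (κ.choose l : ℝ) * gm l * (z + vv w D r) ^ (κ - l) =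
              ∑ l ∈ range (ν + 1), (cc w D r ν (b / 2) κ : ℝ) * (mid (vv w D r) κ l : ℝ) * z ^ l := by
            intro κ hκ
            rw [mem_range] at hκ
            rw [expand _ _ κ ν (by omega), mul_sum]
            have h5 : co w D r ν b κ = cc w D r ν (b / 2) κ := by
              unfold co cc
              rw [Nat.mul_div_cancel' hb2.two_dvd]
            rw [h5]
            exact sum_congr rfl fun l _ => by ring
          rw [sum_congr rfl h4, sum_comm]
          exact sum_congr rfl fun l _ => by rw [sum_mul]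
        rw [h3, sub_self, abs_zero]
        positivity
      · have h3 : ∑ l ∈ range (ν + 1), (TE w D r ν b l : ℝ) * z ^ l = 0 := by
          refine sum_eq_zero fun l _ => ?_
          unfold TE
          rw [if_neg (Nat.not_even_iff_odd.2 hb2), Nat.cast_zero, zero_mul]
        rw [h3, sub_zero]
        rcases Nat.even_or_odd D with hD2 | hD2
        · have h4 : ∑ κ ∈ range (ν + 1), (co w D r ν b κ : ℝ) * ∑ l ∈ range (κ + 1), (κ.choose l : ℝ) * gm l * (z + vv w D r) ^ (κ - l) = 0 := by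
            refine sum_eq_zero fun κ _ => ?_
            rw [co_zero w D r ν b κ hD2 hb2, Nat.cast_zero, zero_mul]
          rw [h4, abs_zero]
          positivity
        · have hvv : vv w D r = 0 := by
            unfold vv
            rw [if_neg (Nat.not_even_iff_odd.2 hD2)]
          rw [hvv, Nat.cast_zero, add_zero]
          have hzs : z ≤ |C₁| / s := by
            have h4 := (abs_le.1 hzz).2
            rw [hodd hD2, Nat.cast_zero, sub_zero] at h4
            exact h4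
          have hz1 : z ≤ 1 + |C₁| := by
            have : |C₁| / s ≤ |C₁| := div_le_self (abs_nonneg _) hs1
            linarith
          refine (abs_sum_le_sum_abs _ _).trans ?_
          have h4 : ∀ κ ∈ range (ν + 1), |(co w D r ν b κ : ℝ) * ∑ l ∈ range (κ + 1), (κ.choose l : ℝ) * gm l * z ^ (κ - l)| ≤
              (co w D r ν b κ : ℝ) * (G / s) := by
            intro κ hκ
            rw [abs_mul, abs_of_nonneg (Nat.cast_nonneg _ : (0 : ℝ) ≤ _)]
            rcases Nat.even_or_odd κ with hκ2 | hκ2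
            · rw [co_even w D r ν b κ hb2 hκ2, Nat.cast_zero, zero_mul, zero_mul]
            · refine mul_le_mul_of_nonneg_left ?_ (Nat.cast_nonneg _)
              have h5 : ∑ l ∈ range (κ + 1), (κ.choose l : ℝ) * gm l * (|C₁| * (1 + |C₁|) ^ κ) ≤ G := by
                rw [hG]
                exact single_le_sum (f := fun κ => ∑ l ∈ range (κ + 1), (κ.choose l : ℝ) * gm l * (|C₁| * (1 + |C₁|) ^ κ))
                  (fun _ _ => by positivity) hκ
              refine le_trans ?_ (div_le_div_of_nonneg_right h5 hs0.le)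
              refine (abs_sum_le_sum_abs _ _).trans ?_
              rw [sum_div]
              refine sum_le_sum fun l hl => ?_
              rw [mem_range] at hl
              rcases Nat.even_or_odd l with hl2 | hl2
              · rw [abs_of_nonneg (by positivity), mul_div_assoc]
                refine mul_le_mul_of_nonneg_left ?_ (by positivity)
                have h6 : 1 ≤ κ - l := by
                  obtain ⟨a, ha⟩ := hκ2
                  obtain ⟨b, hb⟩ := hl2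
                  omega
                have h7 : z ^ (κ - l) = z * z ^ (κ - l - 1) := by
                  rw [← pow_succ']
                  congr 1
                  omega
                have h8 : z ^ (κ - l - 1) ≤ (1 + |C₁|) ^ κ := by
                  refine (pow_le_pow_left₀ hz0 hz1 _).trans (pow_le_pow_right₀ ?_ (by omega))
                  linarith [abs_nonneg C₁]
                rw [h7]
                calc z * z ^ (κ - l - 1) ≤ |C₁| / s * (1 + |C₁|) ^ κ := mul_le_mul hzs h8 (by positivity) (by positivity)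
                  _ = _ := by ring
              · have h6 : gm l = 0 := if_neg (Nat.not_even_iff_odd.2 hl2)
                rw [h6, Nat.cast_zero, mul_zero, zero_mul, abs_zero, zero_mul, zero_div]
          refine (sum_le_sum h4).trans ?_
          rw [← sum_mul, mul_div_assoc]
          exact mul_le_mul_of_nonneg_right hcb1 (by positivity)
    have h3 : av (XG w D r ν b E f Δ ψ) - ∑ l ∈ range (ν + 1), (TE w D r ν b l : ℝ) * z ^ l =
        (av (XG w D r ν b E f Δ ψ) - ∑ κ ∈ range (ν + 1), (co w D r ν b κ : ℝ) *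
          ∑ l ∈ range (κ + 1), (κ.choose l : ℝ) * gm l * (z + vv w D r) ^ (κ - l)) +
        (∑ κ ∈ range (ν + 1), (co w D r ν b κ : ℝ) * ∑ l ∈ range (κ + 1), (κ.choose l : ℝ) * gm l * (z + vv w D r) ^ (κ - l) -
          ∑ l ∈ range (ν + 1), (TE w D r ν b l : ℝ) * z ^ l) := by ring
    rw [h3]
    refine (abs_add_le _ _).trans ((add_le_add h1 h2).trans (le_of_eq ?_))
    ring
  have hdiff : |∑ l ∈ range (ν + 1), (TE w D r ν b l : ℝ) * z ^ l - ∑ l ∈ range (ν + 1), (TE w D r ν b l : ℝ) * (z₀ : ℝ) ^ l| ≤ c₃ * Z₁ / s := by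
    rw [← sum_sub_distrib]
    refine (abs_sum_le_sum_abs _ _).trans ?_
    have h1 : ∀ l ∈ range (ν + 1), |(TE w D r ν b l : ℝ) * z ^ l - (TE w D r ν b l : ℝ) * (z₀ : ℝ) ^ l| ≤ (TE w D r ν b l : ℝ) * (Z₁ / s) := by
      intro l hl
      rw [mem_range] at hl
      rw [← mul_sub, abs_mul, abs_of_nonneg (Nat.cast_nonneg _ : (0 : ℝ) ≤ _)]
      refine mul_le_mul_of_nonneg_left ?_ (Nat.cast_nonneg _)
      refine (pow_diff z z₀ B hB1 hzB hz₀B l).trans ?_
      rw [hZ₁, mul_div_assoc]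
      refine mul_le_mul ?_ hzz (abs_nonneg _) (by positivity)
      have h7 : (l : ℝ) ≤ ν := by exact_mod_cast (by omega : l ≤ ν)
      exact mul_le_mul h7 (pow_le_pow_right₀ hB1 (by omega)) (by positivity) (Nat.cast_nonneg _)
    refine (sum_le_sum h1).trans ?_
    rw [← sum_mul, mul_div_assoc]
    exact mul_le_mul_of_nonneg_right hcb3 (by positivity)
  rw [← hs]
  have h8 := abs_add_le (av (XG w D r ν b E f Δ ψ) - ∑ l ∈ range (ν + 1), (TE w D r ν b l : ℝ) * z ^ l)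
    (∑ l ∈ range (ν + 1), (TE w D r ν b l : ℝ) * z ^ l - ∑ l ∈ range (ν + 1), (TE w D r ν b l : ℝ) * (z₀ : ℝ) ^ l)
  rw [sub_add_sub_cancel] at h8
  refine h8.trans ?_
  rw [add_div]
  exact add_le_add hmain hdiff

end Q282HM
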