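import Pool.Agent.Q282.LT.Box

/-!
# High moments of sums of bounded functions of residues to coprime moduli
-/

set_option autoImplicit false
set_option linter.unusedSectionVars false

namespace Q282HM

open Finset
open Q282LT
open Pool.Agent.TH894.NE (Per mean mean_mul mean_mono mean_const)

lemma exp_sub (x : ℝ) (hx : 0 ≤ x) : Real.exp x - x ≤ Real.exp (x ^ 2) := by
  rcases le_total x 1 with h | h
  · have h1 : |Real.exp x - 1 - x| ≤ x ^ 2 := Real.abs_exp_sub_one_sub_id_le (by rw [abs_of_nonneg hx]; exact h)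
    have h2 := (abs_le.1 h1).2
    have h3 := Real.add_one_le_exp (x ^ 2)
    linarith
  · have h1 : Real.exp x ≤ Real.exp (x ^ 2) := Real.exp_le_exp.2 (by nlinarith)
    linarith

/-- the sum over a triangle is at most the product -/
lemma tri (f g : ℕ → ℝ) (hf : ∀ j, 0 ≤ f j) (hg : ∀ j, 0 ≤ g j) (K : ℕ) :
    ∑ k ∈ range (K + 1), ∑ j ∈ range (k + 1), f j * g (k - j) ≤ (∑ j ∈ range (K + 1), f j) * ∑ i ∈ range (K + 1), g i := by
  have h1 : ∀ k, ∑ j ∈ range (k + 1), f j * g (k - j) = ∑ x ∈ antidiagonal k, f x.1 * g x.2 := by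
    intro k
    rw [Nat.sum_antidiagonal_eq_sum_range_succ (fun a b => f a * g b)]
  rw [sum_congr rfl fun k _ => h1 k, sum_mul_sum, ← sum_product']
  have h2 : ∑ k ∈ range (K + 1), ∑ x ∈ antidiagonal k, f x.1 * g x.2 =
      ∑ x ∈ (range (K + 1) ×ˢ range (K + 1)).filter (fun x => x.1 + x.2 < K + 1), f x.1 * g x.2 := by
    rw [← sum_fiberwise_of_maps_to (s := (range (K + 1) ×ˢ range (K + 1)).filter (fun x => x.1 + x.2 < K + 1))
      (t := range (K + 1)) (g := fun x : ℕ × ℕ => x.1 + x.2)]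
    · refine sum_congr rfl fun k hk => ?_
      rw [mem_range] at hk
      refine sum_congr ?_ fun _ _ => rfl
      ext x
      simp only [mem_filter, mem_product, mem_range, HasAntidiagonal.mem_antidiagonal]
      omega
    · intro x hx
      rw [mem_filter] at hx
      rw [mem_range]
      exact hx.2
  rw [h2]
  exact sum_le_sum_of_subset_of_nonneg (filter_subset _ _) fun x _ _ => mul_nonneg (hf _) (hg _)

section

variable {d : ℕ} {ι : Type*} [DecidableEq ι]

lemma mean_pow_le' (B : ℝ) (q : ℕ) (hq : 1 ≤ q) (F : (Fin d → ℕ) → ℝ) (hb : ∀ n, |F n| ≤ B) (j : ℕ) :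
    |mean d q (fun n => F n ^ j)| ≤ B ^ j := by
  have h1 : ∀ n, |F n ^ j| ≤ B ^ j := fun n => by
    rw [abs_pow]
    exact pow_le_pow_left₀ (abs_nonneg _) (hb n) j
  rw [abs_le]
  constructor
  · rw [← mean_const d q hq (-B ^ j)]
    exact mean_mono fun n => (abs_le.1 (h1 n)).1
  · refine (mean_mono (G := fun _ => B ^ j) fun n => (abs_le.1 (h1 n)).2).trans ?_
    rw [mean_const d q hq]

/-- the exponential generating function of the moments of one function -/
lemma one_fun (B : ℝ) (hB : 0 ≤ B) (q : ℕ) (hq : 1 ≤ q) (F : (Fin d → ℕ) → ℝ) (hb : ∀ n, |F n| ≤ B) (h0 : mean d q F = 0)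
    (t : ℝ) (ht : 0 ≤ t) (K : ℕ) :
    ∑ j ∈ range (K + 1), |mean d q (fun n => F n ^ j)| * (t ^ j / (j.factorial : ℝ)) ≤ Real.exp (B * t) - B * t := by
  have hbt : 0 ≤ B * t := mul_nonneg hB ht
  rcases Nat.eq_zero_or_pos K with rfl | hK
  · rw [zero_add, sum_range_one]
    simp only [pow_zero, Nat.factorial_zero, Nat.cast_one, div_one, mul_one]
    rw [mean_const d q hq 1, abs_one]
    have := Real.add_one_le_exp (B * t)
    linarith
  · have h1 : ∑ j ∈ range (K + 1), |mean d q (fun n => F n ^ j)| * (t ^ j / (j.factorial : ℝ)) ≤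
        ∑ j ∈ range (K + 1), ((B * t) ^ j / (j.factorial : ℝ) - if j = 1 then B * t else 0) := by
      refine sum_le_sum fun j _ => ?_
      by_cases hj : j = 1
      · rw [if_pos hj, hj]
        simp only [pow_one]
        rw [h0, abs_zero, zero_mul]
        simp
      · rw [if_neg hj, sub_zero, mul_pow, mul_div_assoc]
        exact mul_le_mul_of_nonneg_right (mean_pow_le' B q hq F hb j) (by positivity)
    refine h1.trans ?_
    rw [sum_sub_distrib, sum_ite_eq' (range (K + 1)) 1, if_pos (mem_range.2 (by omega))]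
    have h2 := Real.sum_le_exp_of_nonneg hbt (K + 1)
    linarith

/-- the exponential generating function of the moments -/
lemma egf (I : Finset ι) (q : ι → ℕ) (F : ι → (Fin d → ℕ) → ℝ) (B : ι → ℝ) (hq : ∀ b ∈ I, 1 ≤ q b)
    (hco : ∀ a ∈ I, ∀ b ∈ I, a ≠ b → Nat.Coprime (q a) (q b)) (hF : ∀ b ∈ I, Per (q b) (F b))
    (h0 : ∀ b ∈ I, mean d (q b) (F b) = 0) (hB : ∀ b ∈ I, 0 ≤ B b) (hb : ∀ b ∈ I, ∀ n, |F b n| ≤ B b) (t : ℝ) (ht : 0 ≤ t) (K : ℕ) :
    ∑ j ∈ range (K + 1), |mk d I q F j| * (t ^ j / (j.factorial : ℝ)) ≤ ∏ a ∈ I, (Real.exp (B a * t) - B a * t) := by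
  induction I using Finset.induction_on with
  | empty =>
    rw [prod_empty, sum_eq_single 0]
    · rw [mk_empty]
      simp
    · intro j _ hj
      rw [mk_empty, if_neg hj, abs_zero, zero_mul]
    · intro h
      exact absurd (mem_range.2 (Nat.succ_pos K)) h
  | insert a I ha ih =>
    have ha' : a ∈ insert a I := mem_insert_self a I
    have hm : ∀ b ∈ I, b ∈ insert a I := fun b hb => mem_insert_of_mem hb
    have ih' := ih (fun b hb => hq b (hm b hb)) (fun x hx y hy => hco x (hm x hx) y (hm y hy)) (fun b hb => hF b (hm b hb))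
      (fun b hb => h0 b (hm b hb)) (fun b hb => hB b (hm b hb)) (fun b hb' => hb b (hm b hb'))
    have h1 := one_fun (B a) (hB a ha') (q a) (hq a ha') (F a) (hb a ha') (h0 a ha') t ht K
    rw [prod_insert ha]
    have h2 : ∀ k ∈ range (K + 1), |mk d (insert a I) q F k| * (t ^ k / (k.factorial : ℝ)) ≤
        ∑ j ∈ range (k + 1), (|mean d (q a) (fun n => F a n ^ j)| * (t ^ j / (j.factorial : ℝ))) *
          (|mk d I q F (k - j)| * (t ^ (k - j) / ((k - j).factorial : ℝ))) := by
      intro k _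
      rw [mk_insert I q F a ha hq (fun b hb => hco a ha' b (hm b hb) (fun h => ha (h ▸ hb))) hF k]
      refine (mul_le_mul_of_nonneg_right (abs_sum_le_sum_abs _ _) (by positivity)).trans ?_
      rw [sum_mul]
      refine sum_le_sum fun j hj => ?_
      rw [mem_range] at hj
      rw [abs_mul, abs_mul, abs_of_nonneg (Nat.cast_nonneg _ : (0 : ℝ) ≤ _)]
      refine le_of_eq ?_
      have h3 : ((k.choose j : ℕ) : ℝ) * (1 / (k.factorial : ℝ)) = 1 / (j.factorial : ℝ) * (1 / ((k - j).factorial : ℝ)) := by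
        have h4 := Nat.choose_mul_factorial_mul_factorial (show j ≤ k by omega)
        have h5 : ((k.choose j : ℕ) : ℝ) * (j.factorial : ℝ) * ((k - j).factorial : ℝ) = (k.factorial : ℝ) := by exact_mod_cast h4
        have h6 : (k.factorial : ℝ) ≠ 0 := by positivity
        have h7 : (j.factorial : ℝ) ≠ 0 := by positivity
        have h8 : ((k - j).factorial : ℝ) ≠ 0 := by positivity
        rw [mul_one_div, one_div_mul_one_div, div_eq_div_iff h6 (mul_ne_zero h7 h8), one_mul, ← h5]
        ring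
      have h4 : t ^ k = t ^ j * t ^ (k - j) := by
        rw [← pow_add]
        congr 1
        omega
      rw [h4]
      calc ((k.choose j : ℕ) : ℝ) * |mean d (q a) (fun n => F a n ^ j)| * |mk d I q F (k - j)| * (t ^ j * t ^ (k - j) / (k.factorial : ℝ)) =
          (((k.choose j : ℕ) : ℝ) * (1 / (k.factorial : ℝ))) * (|mean d (q a) (fun n => F a n ^ j)| * |mk d I q F (k - j)| * (t ^ j * t ^ (k - j))) := by ring
        _ = _ := by
          rw [h3]
          ring
    refine (sum_le_sum h2).trans ((tri (fun j => |mean d (q a) (fun n => F a n ^ j)| * (t ^ j / (j.factorial : ℝ)))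
      (fun j => |mk d I q F j| * (t ^ j / (j.factorial : ℝ))) (fun j => by positivity) (fun j => by positivity) K).trans ?_)
    refine mul_le_mul h1 ih' (sum_nonneg fun j _ => by positivity) ?_
    have := Real.add_one_le_exp (B a * t)
    linarith

/-- **The moments of even order.** -/
theorem mk_le (I : Finset ι) (q : ι → ℕ) (F : ι → (Fin d → ℕ) → ℝ) (B : ι → ℝ) (hq : ∀ b ∈ I, 1 ≤ q b)
    (hco : ∀ a ∈ I, ∀ b ∈ I, a ≠ b → Nat.Coprime (q a) (q b)) (hF : ∀ b ∈ I, Per (q b) (F b))
    (h0 : ∀ b ∈ I, mean d (q b) (F b) = 0) (hB : ∀ b ∈ I, 0 ≤ B b) (hb : ∀ b ∈ I, ∀ n, |F b n| ≤ B b) (V : ℝ) (hV : 0 < V)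
    (hBV : ∑ a ∈ I, B a ^ 2 ≤ V) (k : ℕ) (hk : 1 ≤ k) : mk d I q F (2 * k) ≤ (12 * k * V) ^ k := by
  have hk0 : (0 : ℝ) < k := by exact_mod_cast hk
  obtain ⟨t, ht⟩ : ∃ t : ℝ, t = Real.sqrt (k / V) := ⟨_, rfl⟩
  have ht0 : 0 ≤ t := by
    rw [ht]
    exact Real.sqrt_nonneg _
  have ht2 : t ^ 2 = k / V := by
    rw [ht, Real.sq_sqrt (by positivity)]
  have h1 := egf I q F B hq hco hF h0 hB hb t ht0 (2 * k)
  have h2 : ∏ a ∈ I, (Real.exp (B a * t) - B a * t) ≤ Real.exp k := by
    calc ∏ a ∈ I, (Real.exp (B a * t) - B a * t) ≤ ∏ a ∈ I, Real.exp ((B a * t) ^ 2) := by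
          refine prod_le_prod (fun a ha => ?_) fun a ha => exp_sub _ (mul_nonneg (hB a ha) ht0)
          have := Real.add_one_le_exp (B a * t)
          linarith
      _ = Real.exp (∑ a ∈ I, (B a * t) ^ 2) := (Real.exp_sum _ _).symm
      _ ≤ Real.exp k := by
          refine Real.exp_le_exp.2 ?_
          have h3 : ∑ a ∈ I, (B a * t) ^ 2 = (∑ a ∈ I, B a ^ 2) * t ^ 2 := by
            rw [sum_mul]
            exact sum_congr rfl fun a _ => mul_pow _ _ _
          rw [h3, ht2]
          calc (∑ a ∈ I, B a ^ 2) * (k / V) ≤ V * (k / V) := mul_le_mul_of_nonneg_right hBV (by positivity)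
            _ = k := by field_simp
  have h3 : mk d I q F (2 * k) * (t ^ (2 * k) / ((2 * k).factorial : ℝ)) ≤ Real.exp k := by
    refine le_trans ?_ (h1.trans h2)
    refine le_trans (mul_le_mul_of_nonneg_right (le_abs_self _) (by positivity)) ?_
    exact single_le_sum (f := fun j => |mk d I q F j| * (t ^ j / (j.factorial : ℝ))) (fun j _ => by positivity)
      (mem_range.2 (Nat.lt_succ_self _))
  have h4 : t ^ (2 * k) = (k / V) ^ k := by rw [pow_mul, ht2]
  have h5 : ((2 * k).factorial : ℝ) ≤ (2 * (k : ℝ)) ^ (2 * k) := by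
    have := Nat.factorial_le_pow (2 * k)
    exact_mod_cast this
  have h6 : Real.exp k ≤ 3 ^ k := by
    have h7 : Real.exp k = Real.exp 1 ^ k := by
      rw [← Real.exp_nat_mul, mul_one]
    rw [h7]
    refine pow_le_pow_left₀ (Real.exp_pos _).le ?_ k
    have := Real.exp_one_lt_d9
    linarith
  rw [h4] at h3
  have h7 : (0 : ℝ) < (k / V) ^ k := by positivity
  have h8 : (0 : ℝ) < ((2 * k).factorial : ℝ) := by positivity
  have h9 : mk d I q F (2 * k) ≤ Real.exp k * (((2 * k).factorial : ℝ) / (k / V) ^ k) := by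
    have h10 : mk d I q F (2 * k) = mk d I q F (2 * k) * ((k / V) ^ k / ((2 * k).factorial : ℝ)) * (((2 * k).factorial : ℝ) / (k / V) ^ k) := by
      field_simp
    rw [h10]
    exact mul_le_mul_of_nonneg_right h3 (by positivity)
  refine h9.trans ?_
  calc Real.exp k * (((2 * k).factorial : ℝ) / (k / V) ^ k) ≤ 3 ^ k * ((2 * (k : ℝ)) ^ (2 * k) / (k / V) ^ k) := by
        refine mul_le_mul h6 (div_le_div_of_nonneg_right h5 h7.le) (by positivity) (by positivity)
    _ = (12 * k * V) ^ k := by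
        rw [pow_mul, ← div_pow, ← mul_pow]
        congr 1
        field_simp
        ring

end

end Q282HM
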